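import Pool.Agent.Run7.h483.P24.Pa

/-!
# P24 (helper483): U32, U33 and PAR, the parity of the Gross sums
-/

set_option autoImplicit false

namespace Pool.Agent.Run7.h483.P24

open Finset
open Pool.Agent.N969.P15 (V3 Qc)
open Pool.Agent.Run7.h135.P24 (ip vec vef rr rr0 cc cp cp0 cp3 loc loc3 Cls0 Cls3 S_U32 S_U33 S_PAR
  rel31 rel32 rel33 t_R)
open Pool.Agent.Run7.h483.P15 (dd dd_neg dd_nine nsq nsq9 sq3 card3 sym_div odd_dvd par_mul om_mul
  div_facts)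

/-! ### the vectors of norm three -/

theorem vec3 : vec 3 = {![1, 1, 1]} := by
  ext v
  rw [mem_singleton, vec, mem_filter, vef, mem_filter]
  constructor
  · rintro ⟨⟨_, h⟩, h0, h1, h2⟩
    unfold ip at h
    have g0 : v 0 = 1 := by
      have a1 : v 0 * v 0 ≤ 3 := by nlinarith [mul_self_nonneg (v 1), mul_self_nonneg (v 2)]
      have a2 : v 0 < 2 := by nlinarith
      have a3 : -2 < v 0 := by nlinarith
      omega
    have g1 : v 1 = 1 := by
      have a1 : v 1 * v 1 ≤ 3 := by nlinarith [mul_self_nonneg (v 0), mul_self_nonneg (v 2)]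
      have a2 : v 1 < 2 := by nlinarith
      have a3 : -2 < v 1 := by nlinarith
      omega
    have g2 : v 2 = 1 := by
      have a1 : v 2 * v 2 ≤ 3 := by nlinarith [mul_self_nonneg (v 0), mul_self_nonneg (v 1)]
      have a2 : v 2 < 2 := by nlinarith
      have a3 : -2 < v 2 := by nlinarith
      omega
    funext i
    fin_cases i
    · exact g0
    · exact g1
    · exact g2
  · rintro rfl
    refine ⟨⟨?_, ?_⟩, ?_, ?_, ?_⟩
    · rw [Fintype.mem_piFinset]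
      intro i
      rw [mem_Icc]
      fin_cases i <;> simp
    · unfold ip
      simp
    · simp
    · simp
    · simp

theorem rr_three : rr 3 = 1 ∧ cc 3 = -3 := by
  unfold cc rr rr0
  rw [vec3]
  have h : ({![1, 1, 1]} : Finset V3).filter (fun v => (3 : ℤ) ∣ v 0 + v 1 + v 2) =
      {![1, 1, 1]} := by
    rw [filter_singleton, if_pos]
    simp
  constructor
  · simp
  · rw [h]
    simp

/-! ### U32 -/

theorem cls0_facts {n : ℕ} (h : Cls0 n) : Squarefree n ∧ n % 8 = 3 ∧ n % 3 = 2 ∧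
    ¬ 3 ∣ n ∧ 3 < n := by
  obtain ⟨h1, h2⟩ := h
  refine ⟨h1, ?_, ?_, ?_, ?_⟩ <;> omega

/-- the cofactors modulo `8` -/
theorem co1 {d e n : ℕ} (h : d * e = n) (hd : d % 8 = 1) : e % 8 = n % 8 := by
  have h1 := Nat.mul_mod d e 8
  rw [h, hd] at h1
  omega

theorem co3 {d e n : ℕ} (h : d * e = n) (hd : d % 8 = 3) (hn : n % 8 = 1) : e % 8 = 3 := by
  have h1 := Nat.mul_mod d e 8
  rw [h, hd, hn] at h1
  omega

/-- the condition modulo `16`, for `n ≡ 3 mod 8` -/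
theorem cond1 {d e n : ℕ} (h : d * e = n) (hd : d % 8 = 1) (hn : n % 8 = 3) (c : ℤ) :
    (16 : ℤ) ∣ ((3 * d : ℕ) : ℤ) + (e : ℤ) - 2 * c ↔ (16 : ℤ) ∣ (n : ℤ) + 3 - 2 * c := by
  have he := co1 h hd
  obtain ⟨j, hj⟩ : ∃ j : ℤ, (d : ℤ) - 1 = 8 * j := ⟨((d : ℤ) - 1) / 8, by omega⟩
  obtain ⟨k, hk⟩ : ∃ k : ℤ, (e : ℤ) - 3 = 8 * k := ⟨((e : ℤ) - 3) / 8, by omega⟩
  have h1 : (n : ℤ) = d * e := by exact_mod_cast h.symm
  have h2 : ((3 * d : ℕ) : ℤ) + (e : ℤ) = (n : ℤ) + 3 - 64 * (j * k) := by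
    have h3 : ((d : ℤ) - 1) * ((e : ℤ) - 3) = 64 * (j * k) := by
      rw [hj, hk]
      ring
    rw [h1]
    push_cast
    linarith
  rw [h2]
  generalize j * k = t
  omega

/-- the condition modulo `16`, for `m ≡ 1 mod 8` -/
theorem cond2 {d e m : ℕ} (h : d * e = m) (hd : d % 8 = 1) (hm : m % 8 = 1) (c : ℤ) :
    (16 : ℤ) ∣ ((3 * d : ℕ) : ℤ) + ((3 * e : ℕ) : ℤ) - 2 * (3 * c) ↔
      (16 : ℤ) ∣ (m : ℤ) + 1 - 2 * c := by
  have he := co1 h hd
  obtain ⟨j, hj⟩ : ∃ j : ℤ, (d : ℤ) - 1 = 8 * j := ⟨((d : ℤ) - 1) / 8, by omega⟩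
  obtain ⟨k, hk⟩ : ∃ k : ℤ, (e : ℤ) - 1 = 8 * k := ⟨((e : ℤ) - 1) / 8, by omega⟩
  have h1 : (m : ℤ) = d * e := by exact_mod_cast h.symm
  have h2 : (d : ℤ) + (e : ℤ) = (m : ℤ) + 1 - 64 * (j * k) := by
    have h3 : ((d : ℤ) - 1) * ((e : ℤ) - 1) = 64 * (j * k) := by
      rw [hj, hk]
      ring
    rw [h1]
    linarith
  push_cast
  have h4 : 3 * (d : ℤ) + 3 * (e : ℤ) - 2 * (3 * c) = 3 * ((m : ℤ) + 1 - 64 * (j * k)) - 6 * c := by
    rw [← h2]
    ring
  rw [h4]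
  generalize j * k = t
  omega

/-- the condition modulo `16`, for `m ≡ 1 mod 8`, `d ≡ 3 mod 8` -/
theorem cond3 {d e m : ℕ} (h : d * e = m) (hd : d % 8 = 3) (hm : m % 8 = 1) (c : ℤ) :
    (16 : ℤ) ∣ (d : ℤ) + (e : ℤ) - 2 * c ↔ (16 : ℤ) ∣ (m : ℤ) + 1 - 2 * (-c) := by
  have he := co3 h hd hm
  obtain ⟨j, hj⟩ : ∃ j : ℤ, (d : ℤ) - 3 = 8 * j := ⟨((d : ℤ) - 3) / 8, by omega⟩
  obtain ⟨k, hk⟩ : ∃ k : ℤ, (e : ℤ) - 3 = 8 * k := ⟨((e : ℤ) - 3) / 8, by omega⟩
  have h1 : (m : ℤ) = d * e := by exact_mod_cast h.symm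
  have h2 : 3 * ((d : ℤ) + (e : ℤ)) = (m : ℤ) + 9 - 64 * (j * k) := by
    have h3 : ((d : ℤ) - 3) * ((e : ℤ) - 3) = 64 * (j * k) := by
      rw [hj, hk]
      ring
    rw [h1]
    linarith
  generalize j * k = t at h2
  omega

theorem t_U32 : S_U32 := by
  intro n hn
  obtain ⟨hs, h8, h3, h3', hgt⟩ := cls0_facts hn
  have hs3 : Squarefree (3 * n) := sq3 hs h3'
  have hns : ¬ IsSquare (3 * n) := nsq hs3 (by omega)
  have e1 : ∀ d ∈ n.divisors.filter (fun d => d % 8 = 1), (cp0 (3 * d : ℕ) (n / d : ℕ) : ℤ) =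
      3 * ∑ c ∈ Ioo (-((n : ℤ) + 1)) ((n : ℤ) + 1), (if (16 : ℤ) ∣ (n : ℤ) + 3 - 2 * (3 * c) then
        loc (3 * d) (dd (3 * n) (3 * c)) else 0) := by
    intro d hd
    rw [mem_filter, Nat.mem_divisors] at hd
    obtain ⟨k1, k2, k3⟩ := div_facts hs.ne_zero hd.1.1
    have k4 : 3 * d * (n / d) = 3 * n := by rw [mul_assoc, k1]
    have k6 : ((3 * d : ℕ) : ℤ) * ((n / d : ℕ) : ℤ) < (3 * ((n : ℤ) + 1)) ^ 2 := by
      have : ((3 * d : ℕ) : ℤ) * ((n / d : ℕ) : ℤ) = 3 * n := by exact_mod_cast k4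
      rw [this]
      nlinarith [Int.natCast_nonneg n]
    have h := cp0_loc (n1 := 3 * d) (n2 := n / d)
      (hs3.squarefree_of_dvd (Nat.mul_dvd_mul_left 3 hd.1.1)) (by omega)
      (by rw [co1 k1 hd.2, h8]) (by rw [k4]; exact hns) k6 (by omega)
    rw [h, k4]
    congr 1
    refine sum_congr rfl fun c _ => ?_
    simp only [cond1 k1 hd.2 h8 (3 * c)]
  rw [sum_congr rfl e1, ← mul_sum, sum_comm]
  have h12 : (2 : ℤ) * (3 * ∑ c ∈ Ioo (-((n : ℤ) + 1)) ((n : ℤ) + 1),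
      ∑ d ∈ n.divisors.filter (fun d => d % 8 = 1),
        (if (16 : ℤ) ∣ (n : ℤ) + 3 - 2 * (3 * c) then loc (3 * d) (dd (3 * n) (3 * c)) else 0)) =
      3 * ∑ c ∈ Ioo (-((n : ℤ) + 1)) ((n : ℤ) + 1),
        2 * ∑ d ∈ n.divisors.filter (fun d => d % 8 = 1),
        (if (16 : ℤ) ∣ (n : ℤ) + 3 - 2 * (3 * c) then loc (3 * d) (dd (3 * n) (3 * c)) else 0) := by
    rw [← mul_sum]
    ring
  rw [h12]
  refine Dvd.dvd.mul_left (dvd_sum fun c _ => ?_) 3
  by_cases hc : (16 : ℤ) ∣ (n : ℤ) + 3 - 2 * (3 * c)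
  · simp only [if_pos hc]
    exact termT hs h3' (by omega) (3 * c)
  · simp only [if_neg hc, sum_const_zero, mul_zero]
    exact dvd_zero _

/-! ### U33 -/

theorem cls3_facts {m : ℕ} (h : Cls3 m) : Squarefree m ∧ m % 8 = 1 ∧ ¬ 3 ∣ m ∧
    m % 2 = 1 := by
  obtain ⟨h1, h2, h3⟩ := h
  exact ⟨h1, h2, h3, by omega⟩

/-- the index set -/
noncomputable def Sx (m : ℕ) : Finset ℤ :=
  (Ioo (-((m : ℤ) + 1)) ((m : ℤ) + 1)).filter fun c => (16 : ℤ) ∣ (m : ℤ) + 1 - 2 * c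

/-- the sum of the counts over the divisors -/
theorem sumU {m : ℕ} (hm : Cls3 m) (h1 : 1 < m) :
    ∑ d ∈ m.divisors.filter (fun d => d % 8 = 1), (cp0 (3 * d : ℕ) (3 * (m / d) : ℕ) : ℤ) =
      3 * ∑ c ∈ Sx m, At m c := by
  obtain ⟨hs, h8, h3, h2⟩ := cls3_facts hm
  have hs3 : Squarefree (3 * m) := sq3 hs h3
  have hns : ¬ IsSquare (9 * m) := nsq9 hs h1
  have e1 : ∀ d ∈ m.divisors.filter (fun d => d % 8 = 1),
      (cp0 (3 * d : ℕ) (3 * (m / d) : ℕ) : ℤ) =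
      3 * ∑ c ∈ Sx m, loc (3 * d) (9 * dd m c) := by
    intro d hd
    rw [mem_filter, Nat.mem_divisors] at hd
    obtain ⟨k1, k2, k3⟩ := div_facts hs.ne_zero hd.1.1
    have k4 : 3 * d * (3 * (m / d)) = 9 * m := by
      have : 3 * d * (3 * (m / d)) = 9 * (d * (m / d)) := by ring
      rw [this, k1]
    have k6 : ((3 * d : ℕ) : ℤ) * ((3 * (m / d) : ℕ) : ℤ) < (3 * ((m : ℤ) + 1)) ^ 2 := by
      have : ((3 * d : ℕ) : ℤ) * ((3 * (m / d) : ℕ) : ℤ) = 9 * m := by exact_mod_cast k4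
      rw [this]
      nlinarith [Int.natCast_nonneg m]
    have k7 := co1 k1 hd.2
    have h := cp0_loc (n1 := 3 * d) (n2 := 3 * (m / d))
      (hs3.squarefree_of_dvd (Nat.mul_dvd_mul_left 3 hd.1.1)) (by omega)
      (by omega) (by rw [k4]; exact hns) k6 (by omega)
    rw [h, k4]
    unfold Sx
    rw [sum_filter]
    congr 1
    refine sum_congr rfl fun c _ => ?_
    simp only [cond2 k1 hd.2 h8 c, dd_nine]
  rw [sum_congr rfl e1, ← mul_sum, sum_comm]
  rfl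

/-- the hypothesis of the induction for the class `Cls0` -/
def I0 (n : ℕ) : Prop := Cls0 n → (2 : ℤ) ^ (n.primeFactors.card + 1) ∣ 2 * rr n - 2 * cc n

/-- the hypothesis of the induction for the class `Cls3` -/
def I3 (m : ℕ) : Prop := Cls3 m →
  (2 : ℤ) ^ (m.primeFactors.card + 1 + 1) ∣ 2 * rr (3 * m : ℕ) - 2 * cc (3 * m : ℕ)

theorem R0 {n : ℕ} (hn : Cls0 n) : (2 : ℤ) ^ n.primeFactors.card ∣ 2 * rr n := by
  obtain ⟨hs, h8, h3, h3', hgt⟩ := cls0_facts hn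
  obtain ⟨g, hg, _⟩ := t_R n hs h8
  exact ⟨g, hg⟩

theorem R3 {m : ℕ} (hm : Cls3 m) :
    (2 : ℤ) ^ (m.primeFactors.card + 1) ∣ 2 * rr (3 * m : ℕ) := by
  obtain ⟨hs, h8, h3, h2⟩ := cls3_facts hm
  obtain ⟨g, hg, _⟩ := t_R (3 * m) (sq3 hs h3) (by omega)
  rw [card3 hs.ne_zero h3] at hg
  exact ⟨g, hg⟩

/-- the factors of a number `1` modulo `24` in the class -/
theorem split0 {m d : ℕ} (hm : Cls3 m) (h13 : m % 3 = 1) (hd : d ∣ m) (hq : d % 8 = 3 ∧ d % 3 = 2) :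
    (m / d) % 8 = 3 ∧ (m / d) % 3 = 2 ∧ Cls0 d ∧ Cls0 (m / d) ∧ d < m ∧ m / d < m := by
  obtain ⟨hs, h8, h3, h2⟩ := cls3_facts hm
  obtain ⟨k1, k2, k3⟩ := div_facts hs.ne_zero hd
  have hs1 := hs.squarefree_of_dvd hd
  have hs2 := hs.squarefree_of_dvd (Nat.div_dvd_of_dvd hd)
  generalize hee : m / d = e at k1 k3 hs2 ⊢
  have e8 : e % 8 = 3 := co3 k1 hq.1 h8
  have e3 : e % 3 = 2 := by
    have h := Nat.mul_mod d e 3
    rw [k1, hq.2] at h
    have h' : e % 3 = 0 ∨ e % 3 = 1 ∨ e % 3 = 2 := by omega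
    rcases h' with h' | h' | h' <;> rw [h'] at h <;> omega
  refine ⟨e8, e3, ⟨hs1, by omega⟩, ⟨hs2, by omega⟩, ?_, ?_⟩
  · have : 1 < e := by omega
    nlinarith
  · have : 1 < d := by omega
    nlinarith

theorem Ct_neg (m : ℕ) (c : ℤ) : Ct m (-c) = Ct m c := by
  unfold Ct
  rw [dd_neg]

/-- the change of sign of the index -/
theorem sum_flip (m : ℕ) (f : ℤ → ℤ) (hf : ∀ c, f (-c) = f c) :
    ∑ c ∈ Ioo (-((m : ℤ) + 1)) ((m : ℤ) + 1), (if (16 : ℤ) ∣ (m : ℤ) + 1 - 2 * (-c) then f c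
      else 0) = ∑ c ∈ Sx m, f c := by
  unfold Sx
  rw [sum_filter]
  refine sum_nbij' (fun c => -c) (fun c => -c) ?_ ?_ ?_ ?_ ?_
  · intro c hc
    rw [mem_Ioo] at hc ⊢
    omega
  · intro c hc
    rw [mem_Ioo] at hc ⊢
    omega
  · intro c _
    exact neg_neg c
  · intro c _
    exact neg_neg c
  · intro c _
    rw [hf]

/-- the total of the terms -/
theorem H1 {m : ℕ} (hm : Cls3 m) (h1 : 1 < m)
    (h13 : m % 3 = 1) (hI : ∀ d, d < m → I0 d) :
    (2 : ℤ) ^ (m.primeFactors.card + 2) ∣ 72 * ∑ c ∈ Sx m, Ct m c := by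
  obtain ⟨hs, h8, h3, h2⟩ := cls3_facts hm
  have hns := nsq hs h1
  have e2 : (18 : ℤ) * ∑ c ∈ Sx m, Ct m c =
      ∑ d ∈ m.divisors.filter (fun d => d % 8 = 3 ∧ d % 3 = 2),
        (3 * rr d * rr (m / d : ℕ) - cc d * cc (m / d : ℕ)) := by
    unfold Ct
    rw [sum_comm, mul_sum]
    refine sum_congr rfl fun d hd => ?_
    rw [mem_filter, Nat.mem_divisors] at hd
    obtain ⟨k1, k2, k3⟩ := div_facts hs.ne_zero hd.1.1
    obtain ⟨j1, j2, _⟩ := split0 hm h13 hd.1.1 hd.2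
    have k6 : (d : ℤ) * ((m / d : ℕ) : ℤ) < ((m : ℤ) + 1) ^ 2 := by
      have : (d : ℤ) * ((m / d : ℕ) : ℤ) = m := by exact_mod_cast k1
      rw [this]
      nlinarith [Int.natCast_nonneg m]
    have h := sumA (n1 := d) (n2 := m / d) (hs.squarefree_of_dvd hd.1.1) hd.2.1 j1 hd.2.2 j2
      (by rw [k1]; exact hns) k6 (by omega)
    rw [k1] at h
    rw [← h, ← sum_flip m (fun c => lr d (dd m c)) (fun c => by simp only [dd_neg])]
    congr 1
    refine sum_congr rfl fun c _ => ?_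
    simp only [cond3 k1 hd.2.1 h8 c]
  have e1 : (72 : ℤ) * ∑ c ∈ Sx m, Ct m c = ∑ d ∈ m.divisors.filter (fun d => d % 8 = 3 ∧ d % 3 = 2),
      (3 * (2 * rr d) * (2 * rr (m / d : ℕ)) - (2 * cc d) * (2 * cc (m / d : ℕ))) := by
    have e3 : (72 : ℤ) * ∑ c ∈ Sx m, Ct m c = 4 * (18 * ∑ c ∈ Sx m, Ct m c) := by ring
    rw [e3, e2, mul_sum]
    refine sum_congr rfl fun d _ => ?_
    ring
  rw [e1, sym_div hs.ne_zero hns (fun d => d % 8 = 3 ∧ d % 3 = 2)
    (fun d hd hq => ⟨(split0 hm h13 hd hq).1, (split0 hm h13 hd hq).2.1⟩)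
    (fun d => 3 * (2 * rr d) * (2 * rr (m / d : ℕ)) - (2 * cc d) * (2 * cc (m / d : ℕ)))
    (fun d hd _ => by
      rw [Nat.div_div_self hd hs.ne_zero]
      ring)]
  have e3 : (2 : ℤ) ^ (m.primeFactors.card + 2) = 2 * 2 ^ (m.primeFactors.card + 1) := by ring
  rw [e3]
  refine mul_dvd_mul_left 2 (dvd_sum fun d hd => ?_)
  rw [mem_filter, Nat.mem_divisors] at hd
  obtain ⟨_, _, c1, c2, l1, l2⟩ := split0 hm h13 hd.1.1 hd.2.1
  rw [← om_mul hs hd.1.1]
  exact (par_mul (R0 c1) (hI d l1 c1) (R0 c2) (hI (m / d) l2 c2)).2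

/-- the total of the terms with the valuations at three -/
theorem H2 {m : ℕ} (hm : Cls3 m) (h1 : 1 < m) (h13 : m % 3 = 1) :
    (2 : ℤ) ^ (m.primeFactors.card + 1) ∣
      12 * ∑ c ∈ Sx m, (((dd m c).factorization 3 : ℤ) + 1) * Ct m c := by
  obtain ⟨hs, h8, h3, h2⟩ := cls3_facts hm
  have hns := nsq hs h1
  have e2 : (3 : ℤ) * ∑ c ∈ Sx m, (((dd m c).factorization 3 : ℤ) + 1) * Ct m c =
      ∑ d ∈ m.divisors.filter (fun d => d % 8 = 3 ∧ d % 3 = 2), rr d * rr (m / d : ℕ) := by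
    unfold Ct
    have e0 : ∀ c : ℤ, (((dd m c).factorization 3 : ℤ) + 1) *
        ∑ d ∈ m.divisors.filter (fun d => d % 8 = 3 ∧ d % 3 = 2), lr d (dd m c) =
        ∑ d ∈ m.divisors.filter (fun d => d % 8 = 3 ∧ d % 3 = 2),
          (((dd m c).factorization 3 : ℤ) + 1) * lr d (dd m c) := fun c => mul_sum _ _ _
    rw [sum_congr rfl fun c _ => e0 c, sum_comm, mul_sum]
    refine sum_congr rfl fun d hd => ?_
    rw [mem_filter, Nat.mem_divisors] at hd
    obtain ⟨k1, k2, k3⟩ := div_facts hs.ne_zero hd.1.1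
    obtain ⟨j1, j2, _⟩ := split0 hm h13 hd.1.1 hd.2
    have k6 : (d : ℤ) * ((m / d : ℕ) : ℤ) < ((m : ℤ) + 1) ^ 2 := by
      have : (d : ℤ) * ((m / d : ℕ) : ℤ) = m := by exact_mod_cast k1
      rw [this]
      nlinarith [Int.natCast_nonneg m]
    have h := sumB (n1 := d) (n2 := m / d) (hs.squarefree_of_dvd hd.1.1) hd.2.1 j1 hd.2.2
      (by rw [k1]; exact hns) k6 (by omega)
    rw [k1] at h
    rw [← h, ← sum_flip m (fun c => (((dd m c).factorization 3 : ℤ) + 1) * lr d (dd m c))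
      (fun c => by simp only [dd_neg])]
    congr 1
    refine sum_congr rfl fun c _ => ?_
    simp only [cond3 k1 hd.2.1 h8 c]
  have e1 : (12 : ℤ) * ∑ c ∈ Sx m, (((dd m c).factorization 3 : ℤ) + 1) * Ct m c =
      ∑ d ∈ m.divisors.filter (fun d => d % 8 = 3 ∧ d % 3 = 2),
        (2 * rr d) * (2 * rr (m / d : ℕ)) := by
    have e3 : (12 : ℤ) * ∑ c ∈ Sx m, (((dd m c).factorization 3 : ℤ) + 1) * Ct m c =
        4 * (3 * ∑ c ∈ Sx m, (((dd m c).factorization 3 : ℤ) + 1) * Ct m c) := by ring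
    rw [e3, e2, mul_sum]
    refine sum_congr rfl fun d _ => ?_
    ring
  rw [e1, sym_div hs.ne_zero hns (fun d => d % 8 = 3 ∧ d % 3 = 2)
    (fun d hd hq => ⟨(split0 hm h13 hd hq).1, (split0 hm h13 hd hq).2.1⟩)
    (fun d => (2 * rr d) * (2 * rr (m / d : ℕ))) (fun d hd _ => by
      rw [Nat.div_div_self hd hs.ne_zero]
      ring), pow_succ, mul_comm ((2 : ℤ) ^ m.primeFactors.card) 2]
  refine mul_dvd_mul_left 2 (dvd_sum fun d hd => ?_)
  rw [mem_filter, Nat.mem_divisors] at hd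
  obtain ⟨_, _, c1, c2, l1, l2⟩ := split0 hm h13 hd.1.1 hd.2.1
  rw [← om_mul hs hd.1.1, pow_add]
  exact mul_dvd_mul (R0 c1) (R0 c2)

theorem U33_of {m : ℕ} (hm : Cls3 m) (h1 : 1 < m)
    (hI : ∀ d, d < m → I0 d) :
    (2 : ℤ) ^ m.primeFactors.card ∣
      ∑ d ∈ m.divisors.filter (fun d => d % 8 = 1), (cp0 (3 * d : ℕ) (3 * (m / d) : ℕ) : ℤ) := by
  obtain ⟨hs, h8, h3, h2⟩ := cls3_facts hm
  rw [sumU hm h1]
  have key : (2 : ℤ) ^ m.primeFactors.card ∣ ∑ c ∈ Sx m, At m c := by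
    by_cases h13 : m % 3 = 1
    · have g1 := H1 hm h1 h13 hI
      have g2 := H2 hm h1 h13
      have k1 : (2 : ℤ) ^ m.primeFactors.card ∣ 2 * ∑ c ∈ Sx m, Ct m c := by
        have e1 : (72 : ℤ) * ∑ c ∈ Sx m, Ct m c =
            4 * (9 * (2 * ∑ c ∈ Sx m, Ct m c)) := by ring
        have e2 : (2 : ℤ) ^ (m.primeFactors.card + 2) = 4 * 2 ^ m.primeFactors.card := by ring
        rw [e1, e2] at g1
        exact odd_dvd 9 (by decide) (Int.dvd_of_mul_dvd_mul_left (by norm_num) g1)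
      have k2 : (2 : ℤ) ^ m.primeFactors.card ∣
          2 * ∑ c ∈ Sx m, (((dd m c).factorization 3 : ℤ) + 1) * Ct m c := by
        have e1 : (12 : ℤ) * ∑ c ∈ Sx m,
            (((dd m c).factorization 3 : ℤ) + 1) * Ct m c =
            2 * (3 * (2 * ∑ c ∈ Sx m,
              (((dd m c).factorization 3 : ℤ) + 1) * Ct m c)) := by ring
        have e2 : (2 : ℤ) ^ (m.primeFactors.card + 1) = 2 * 2 ^ m.primeFactors.card := by ring
        rw [e1, e2] at g2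
        exact odd_dvd 3 (by decide) (Int.dvd_of_mul_dvd_mul_left (by norm_num) g2)
      -- the difference of the even terms
      have k3 : (2 : ℤ) ^ m.primeFactors.card ∣ ∑ c ∈ Sx m,
          (2 * ((((dd m c).factorization 3 : ℤ) + 1) * Ct m c) -
            if Even ((dd m c).factorization 3) then 2 * Ct m c else 0) := by
        refine dvd_sum fun c _ => ?_
        have h6 := Ct_div hs h2 h3 c
        by_cases hv : Even ((dd m c).factorization 3)
        · rw [if_pos hv]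
          obtain ⟨j, hj⟩ := hv
          have e1 : 2 * ((((dd m c).factorization 3 : ℤ) + 1) * Ct m c) - 2 * Ct m c =
              4 * Ct m c * j := by
            rw [hj]
            push_cast
            ring
          rw [e1]
          exact Dvd.dvd.mul_right h6 _
        · rw [if_neg hv]
          rw [Nat.not_even_iff_odd] at hv
          obtain ⟨j, hj⟩ := hv
          have e1 : 2 * ((((dd m c).factorization 3 : ℤ) + 1) * Ct m c) - 0 =
              4 * Ct m c * (j + 1) := by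
            rw [hj]
            push_cast
            ring
          rw [e1]
          exact Dvd.dvd.mul_right h6 _
      have k4 : (2 : ℤ) ^ m.primeFactors.card ∣ ∑ c ∈ Sx m,
          (At m c + if Even ((dd m c).factorization 3) then 0 else 2 * Ct m c) := by
        refine dvd_sum fun c _ => ?_
        by_cases hv : Even ((dd m c).factorization 3)
        · rw [if_pos hv, add_zero]
          exact At_even hs h2 h3 c hv
        · rw [if_neg hv]
          exact At_odd hs h2 h3 c (Nat.not_even_iff_odd.1 hv)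
      have e5 : ∑ c ∈ Sx m, At m c = ∑ c ∈ Sx m,
          (At m c + if Even ((dd m c).factorization 3) then 0 else 2 * Ct m c) -
          2 * ∑ c ∈ Sx m, Ct m c +
          2 * ∑ c ∈ Sx m, (((dd m c).factorization 3 : ℤ) + 1) * Ct m c -
          ∑ c ∈ Sx m, (2 * ((((dd m c).factorization 3 : ℤ) + 1) * Ct m c) -
            if Even ((dd m c).factorization 3) then 2 * Ct m c else 0) := by
        rw [mul_sum, mul_sum, ← sum_sub_distrib, ← sum_add_distrib, ← sum_sub_distrib]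
        refine sum_congr rfl fun c _ => ?_
        by_cases hv : Even ((dd m c).factorization 3)
        · rw [if_pos hv, if_pos hv]
          ring
        · rw [if_neg hv, if_neg hv]
          ring
      rw [e5]
      exact dvd_sub (dvd_add (dvd_sub k4 k1) k2) k3
    · refine dvd_sum fun c _ => At_even hs h2 h3 c ?_
      by_cases h0 : dd m c = 0
      · rw [h0]
        simp
      · have h6 : ¬ 3 ∣ dd m c := by
          intro h
          have h7 : (dd m c : ℤ) = m - c ^ 2 := by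
            unfold dd at h0 ⊢
            omega
          have h10 : (3 : ℤ) ∣ (dd m c : ℤ) := by exact_mod_cast h
          rw [h7] at h10
          have h9 : c ^ 2 % 3 = 0 ∨ c ^ 2 % 3 = 1 := by
            have h3 : c % 3 = 0 ∨ c % 3 = 1 ∨ c % 3 = 2 := by omega
            rcases h3 with h3 | h3 | h3 <;> simp [pow_two, Int.mul_emod, h3]
          generalize c ^ 2 = u at h10 h9
          omega
        rw [Nat.factorization_eq_zero_of_not_dvd h6]
        exact Even.zero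
  exact Dvd.dvd.mul_left key 3

/-! ### the induction -/

/-- the step for the class `Cls3` -/
theorem I3_step {m : ℕ} (hI0 : ∀ d, d < m → I0 d) (hI3 : ∀ d, d < m → I3 d) : I3 m := by
  intro hm
  obtain ⟨hs, h8, h3, h2⟩ := cls3_facts hm
  by_cases h1 : m = 1
  · subst h1
    have h6 : rr ((3 * 1 : ℕ) : ℤ) = 1 := rr_three.1
    have h7 : cc ((3 * 1 : ℕ) : ℤ) = -3 := rr_three.2
    rw [h6, h7]
    simp
  have hpos : 0 < m := Nat.pos_of_ne_zero hs.ne_zero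
  have h1' : 1 < m := by omega
  have hns := nsq hs h1'
  have hU := U33_of hm h1' hI0
  have hn9 : ∀ d, d ∣ m → ¬ 9 ∣ 3 * d := by
    intro d hd h
    apply h3
    have h6 : 3 ∣ d := by
      have h7 : 3 * 3 ∣ 3 * d := h
      exact Nat.dvd_of_mul_dvd_mul_left (by norm_num) h7
    exact h6.trans hd
  have e1 : (48 : ℤ) * ∑ d ∈ m.divisors.filter (fun d => d % 8 = 1),
      (cp0 (3 * d : ℕ) (3 * (m / d) : ℕ) : ℤ) = ∑ d ∈ m.divisors.filter (fun d => d % 8 = 1),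
      (3 * (2 * rr (3 * d : ℕ)) * (2 * rr (3 * (m / d) : ℕ)) +
        (2 * cc (3 * d : ℕ)) * (2 * cc (3 * (m / d) : ℕ))) := by
    rw [mul_sum]
    refine sum_congr rfl fun d hd => ?_
    rw [mem_filter, Nat.mem_divisors] at hd
    have h := rel33 (3 * d) (3 * (m / d)) (Dvd.intro _ rfl) (hn9 d hd.1.1) (Dvd.intro _ rfl)
      (hn9 _ (Nat.div_dvd_of_dvd hd.1.1))
    linarith
  have hmod : ∀ d, d ∣ m → d % 8 = 1 → (m / d) % 8 = 1 := by
    intro d hd hq
    obtain ⟨k1, k2, k3⟩ := div_facts hs.ne_zero hd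
    rw [co1 k1 hq, h8]
  have e2 := sym_div hs.ne_zero hns (fun d => d % 8 = 1) hmod
    (fun d => 3 * (2 * rr (3 * d : ℕ)) * (2 * rr (3 * (m / d) : ℕ)) +
        (2 * cc (3 * d : ℕ)) * (2 * cc (3 * (m / d) : ℕ)))
    (fun d hd _ => by
      rw [Nat.div_div_self hd hs.ne_zero]
      ring)
  rw [e2] at e1
  have hmem : 1 ∈ m.divisors.filter (fun d => d % 8 = 1 ∧ d < m / d) := by
    rw [mem_filter, Nat.mem_divisors]
    refine ⟨⟨one_dvd m, hs.ne_zero⟩, by norm_num, ?_⟩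
    rw [Nat.div_one]
    exact h1'
  rw [← add_sum_erase _ _ hmem] at e1
  have e3 : (2 : ℤ) ^ (m.primeFactors.card + 3) ∣
      ∑ d ∈ (m.divisors.filter (fun d => d % 8 = 1 ∧ d < m / d)).erase 1,
      (3 * (2 * rr (3 * d : ℕ)) * (2 * rr (3 * (m / d) : ℕ)) +
        (2 * cc (3 * d : ℕ)) * (2 * cc (3 * (m / d) : ℕ))) := by
    refine dvd_sum fun d hd => ?_
    rw [mem_erase, mem_filter, Nat.mem_divisors] at hd
    obtain ⟨hd1, ⟨hdm, _⟩, hd8, hlt⟩ := hd
    obtain ⟨k1, k2, k3⟩ := div_facts hs.ne_zero hdm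
    have he8 := hmod d hdm hd8
    have hs1 := hs.squarefree_of_dvd hdm
    have hs2 := hs.squarefree_of_dvd (Nat.div_dvd_of_dvd hdm)
    have ho := om_mul hs hdm
    have hd3 : ¬ 3 ∣ d := fun h => h3 (h.trans hdm)
    have he3 : ¬ 3 ∣ m / d := fun h => h3 (h.trans (Nat.div_dvd_of_dvd hdm))
    generalize m / d = e at k1 k3 hlt he8 hs2 ho he3 ⊢
    have c1 : Cls3 d := ⟨hs1, hd8, hd3⟩
    have c2 : Cls3 e := ⟨hs2, he8, he3⟩
    have l1 : d < m := by nlinarith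
    have l2 : e < m := by
      have : 1 < d := by omega
      nlinarith
    have h := (par_mul (R3 c1) (hI3 d l1 c1) (R3 c2) (hI3 e l2 c2)).1
    have e6 : d.primeFactors.card + 1 + (e.primeFactors.card + 1) + 1 =
        m.primeFactors.card + 3 := by omega
    rwa [e6] at h
  have e4 : 3 * (2 * rr ((3 * 1 : ℕ) : ℤ)) * (2 * rr ((3 * (m / 1) : ℕ) : ℤ)) +
      (2 * cc ((3 * 1 : ℕ) : ℤ)) * (2 * cc ((3 * (m / 1) : ℕ) : ℤ)) =
      6 * (2 * rr (3 * m : ℕ) - 2 * cc (3 * m : ℕ)) := by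
    have h6 : rr ((3 * 1 : ℕ) : ℤ) = 1 := rr_three.1
    have h7 : cc ((3 * 1 : ℕ) : ℤ) = -3 := rr_three.2
    rw [h6, h7, Nat.div_one]
    ring
  rw [e4] at e1
  -- conclusion
  obtain ⟨u, hu⟩ := hU
  obtain ⟨w, hw⟩ := e3
  rw [hu, hw] at e1
  have e8 : 3 * (2 * rr (3 * m : ℕ) - 2 * cc (3 * m : ℕ)) =
      2 ^ (m.primeFactors.card + 1 + 1) * (3 * u - w) := by
    have g1 : (2 : ℤ) ^ (m.primeFactors.card + 3) = 8 * 2 ^ m.primeFactors.card := by ring
    have g2 : (2 : ℤ) ^ (m.primeFactors.card + 1 + 1) = 4 * 2 ^ m.primeFactors.card := by ring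
    rw [g1] at e1
    rw [g2]
    linarith
  exact odd_dvd 3 (by decide) ⟨_, e8⟩

/-- the step for the class `Cls0` -/
theorem I0_step {n : ℕ} (hI0 : ∀ d, d < n → I0 d) (hI3 : ∀ d, d < n → I3 d) : I0 n := by
  intro hn
  obtain ⟨hs, h8, h3, h3', hgt⟩ := cls0_facts hn
  have hU := t_U32 n hn
  have hmem : 1 ∈ n.divisors.filter (fun d => d % 8 = 1) := by
    rw [mem_filter, Nat.mem_divisors]
    exact ⟨⟨one_dvd n, hs.ne_zero⟩, by norm_num⟩
  rw [← add_sum_erase _ _ hmem] at hU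
  have e3 : (2 : ℤ) ^ (n.primeFactors.card + 2) ∣
      ∑ d ∈ (n.divisors.filter (fun d => d % 8 = 1)).erase 1,
      24 * (cp0 (3 * d : ℕ) (n / d : ℕ) : ℤ) := by
    refine dvd_sum fun d hd => ?_
    rw [mem_erase, mem_filter, Nat.mem_divisors] at hd
    obtain ⟨hd1, ⟨hdm, _⟩, hd8⟩ := hd
    obtain ⟨k1, k2, k3⟩ := div_facts hs.ne_zero hdm
    have hs1 := hs.squarefree_of_dvd hdm
    have hs2 := hs.squarefree_of_dvd (Nat.div_dvd_of_dvd hdm)
    have ho := om_mul hs hdm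
    have hd3 : ¬ 3 ∣ d := fun h => h3' (h.trans hdm)
    have h9 : ¬ 9 ∣ 3 * d := by
      intro h
      have h7 : 3 * 3 ∣ 3 * d := h
      exact hd3 (Nat.dvd_of_mul_dvd_mul_left (by norm_num) h7)
    generalize n / d = e at k1 k3 hs2 ho ⊢
    have he8 : e % 8 = 3 := by rw [co1 k1 hd8, h8]
    have hd3c : d % 3 = 1 ∨ d % 3 = 2 := by omega
    rcases hd3c with hd3c | hd3c
    · have he3 : e % 3 = 2 := by
        have h := Nat.mul_mod d e 3
        rw [k1, hd3c] at h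
        omega
      have hr := rel32 (3 * d) e (Dvd.intro _ rfl) h9 he3
      have hr' : 24 * (cp0 (3 * d : ℕ) e : ℤ) = 3 * (2 * rr (3 * d : ℕ)) * (2 * rr e) +
          (2 * cc (3 * d : ℕ)) * (2 * cc e) := by linarith
      rw [hr']
      have c1 : Cls3 d := ⟨hs1, hd8, hd3⟩
      have c2 : Cls0 e := ⟨hs2, by omega⟩
      have l1 : d < n := by
        have : 1 < e := by omega
        nlinarith
      have l2 : e < n := by
        have : 1 < d := by omega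
        nlinarith
      have h := (par_mul (R3 c1) (hI3 d l1 c1) (R0 c2) (hI0 e l2 c2)).1
      have e6 : d.primeFactors.card + 1 + e.primeFactors.card + 1 =
          n.primeFactors.card + 2 := by omega
      rwa [e6] at h
    · have he3 : e % 3 = 1 := by
        have h := Nat.mul_mod d e 3
        rw [k1, hd3c] at h
        have h' : e % 3 = 0 ∨ e % 3 = 1 ∨ e % 3 = 2 := by omega
        rcases h' with h' | h' | h' <;> rw [h'] at h <;> omega
      rw [rel31 (3 * d) e (Dvd.intro _ rfl) h9 he3]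
      simp
  have e4 : 24 * (cp0 ((3 * 1 : ℕ) : ℤ) ((n / 1 : ℕ) : ℤ) : ℤ) =
      6 * (2 * rr n - 2 * cc n) := by
    have h := rel32 (3 * 1) n (Dvd.intro _ rfl) (by norm_num) h3
    have h6 : rr ((3 * 1 : ℕ) : ℤ) = 1 := rr_three.1
    have h7 : cc ((3 * 1 : ℕ) : ℤ) = -3 := rr_three.2
    rw [h6, h7] at h
    rw [Nat.div_one]
    linarith
  obtain ⟨u, hu⟩ := hU
  obtain ⟨w, hw⟩ := e3
  rw [← mul_sum] at hw
  have e7 : 3 * (2 * rr n - 2 * cc n) = 2 ^ (n.primeFactors.card + 1) * (3 * u - w) := by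
    have g1 : (2 : ℤ) ^ (n.primeFactors.card + 2) = 4 * 2 ^ n.primeFactors.card := by ring
    have g2 : (2 : ℤ) ^ (n.primeFactors.card + 1) = 2 * 2 ^ n.primeFactors.card := by ring
    rw [g1] at hw
    rw [g2]
    linarith
  exact odd_dvd 3 (by decide) ⟨_, e7⟩

theorem I_all (n : ℕ) : I0 n ∧ I3 n := by
  induction n using Nat.strong_induction_on with
  | _ n ih =>
    exact ⟨I0_step (fun d hd => (ih d hd).1) (fun d hd => (ih d hd).2),
      I3_step (fun d hd => (ih d hd).1) (fun d hd => (ih d hd).2)⟩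

theorem t_U33 : S_U33 := fun _ hm h1 => U33_of hm h1 fun d _ => (I_all d).1

/-- PAR: the parity of the Gross sum -/
theorem t_PAR : S_PAR := by
  intro n hn
  obtain ⟨hs, h8, h3, h3', hgt⟩ := cls0_facts hn
  obtain ⟨g, hg, hg2⟩ := t_R n hs h8
  obtain ⟨k, hk⟩ := (I_all n).1 hn
  refine ⟨g - 2 * k, ?_, ?_⟩
  · rw [hg, pow_succ] at hk
    linarith
  · rw [← hg2]
    constructor
    · rintro ⟨j, hj⟩
      exact ⟨j + k, by linarith⟩
    · rintro ⟨j, hj⟩
      exact ⟨j - k, by linarith⟩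

end Pool.Agent.Run7.h483.P24
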