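import Pool.Agent.Run7.h483.P24.C2
import Pool.Agent.Run7.h483.P24.Par
import Pool.Agent.Run7.h135.P24.Fin

/-!
# P24 (helper483): the diagonal identity and the parity, without hypotheses
-/

set_option autoImplicit false

namespace Pool.Agent.Run7.h483.P24

open Pool.Agent.Run7.h135.P24 (S_DIAG S_PAR S_U32 S_U33)

/-- the diagonal identity -/
theorem diag : S_DIAG := Pool.Agent.Run7.h135.P24.t_DIAG t_C2A

theorem par : S_PAR := t_PAR

end Pool.Agent.Run7.h483.P24
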