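import Pool.Agent.Run7.h483.P15.C2
import Pool.Agent.Run7.h135.P24.Defs

/-!
# P24 (helper483): C2A, evaluation of the divisor sums
-/

set_option autoImplicit false

namespace Pool.Agent.Run7.h483.P24

open Finset
open Pool.Agent.Z700 (hh fac)
open Pool.Agent.N969.P15 (psp)
open Pool.Agent.Run7.h135.P24 (WW loc3 Cls0 S_C2A)
open Pool.Agent.Run7.h483.P15 (F fl fl_zero F_prod cq Ph dsum jac_neg jac2 sumk hh_four fact_four
  fl_dvd sum_alt fact2_four)

/-! ### symbols -/

theorem jac3 {n : ℕ} (hn : n % 4 = 3) (h3 : n % 3 = 2) : jacobiSym ((3 : ℕ) : ℤ) n = 1 := by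
  rw [← jac_neg hn (by norm_num : 3 % 2 = 1),
    jacobiSym.mod_left' (a₂ := 1) (b := 3) (by push_cast; omega)]
  exact jacobiSym.one_left 3

/-! ### the divisor sum as a double sum -/

theorem WW_eq {e n S T : ℕ} (he : 0 < e) (hn3 : ¬ 3 ∣ n) (hT : 0 < T) :
    WW e n (3 * S) (e * T) =
      ∑ a ∈ S.divisors, ∑ X ∈ T.divisors, ∏ p ∈ n.primeFactors, Ph 3 e S T p a X := by
  unfold WW
  rw [sumk (by norm_num)]
  refine sum_congr rfl fun a _ => ?_
  rw [sumk he, ← Nat.sum_div_divisors T]
  refine sum_congr rfl fun b hb => ?_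
  have hb' := Nat.mem_divisors.1 hb
  refine prod_congr rfl fun p hp => ?_
  have hpp := Nat.prime_of_mem_primeFactors hp
  have hp3 : p ∣ 3 * a ↔ p ∣ a := by
    rw [hpp.dvd_mul]
    refine or_iff_right fun h => ?_
    rw [Nat.prime_dvd_prime_iff_eq hpp (by norm_num : Nat.Prime 3)] at h
    exact hn3 (h ▸ Nat.dvd_of_mem_primeFactors hp)
  have e1 : e * T / (e * (T / b)) = T / (T / b) := Nat.mul_div_mul_left _ _ he
  have e2 : 3 * S / (3 * a) = S / a := Nat.mul_div_mul_left _ _ (by norm_num)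
  have e3 : T / (T / b) = b := Nat.div_div_self hb'.1 hT.ne'
  unfold psp Ph
  rw [e1, e2, e3]
  by_cases h : p ∣ a ∧ p ∣ b
  · rw [if_pos h, if_pos ⟨hp3.2 h.1, h.2⟩]
  · rw [if_neg h, if_neg (fun h' => h ⟨hp3.1 h'.1, h'.2⟩)]

/-! ### the local factors -/

/-- the primes different from `2`, `3` -/
def core (D : ℕ) : Finset ℕ := (D.primeFactors.erase 2).erase 3

theorem mem_core {D l : ℕ} : l ∈ core D ↔ l ≠ 3 ∧ l ≠ 2 ∧ l ∈ D.primeFactors := by
  unfold core
  rw [mem_erase, mem_erase]

theorem core_four {n m : ℕ} (hm : m ≠ 0) :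
    ∏ l ∈ core (4 * m), fac n (4 * m) l = ∏ l ∈ core m, fac n m l := by
  have hc : core (4 * m) = core m := by
    ext l
    rw [mem_core, mem_core]
    refine and_congr_right fun _ => and_congr_right fun h2 => ?_
    rw [Nat.mem_primeFactors, Nat.mem_primeFactors]
    constructor
    · rintro ⟨h3, h4, -⟩
      refine ⟨h3, ?_, hm⟩
      rcases (h3.dvd_mul).1 h4 with h5 | h5
      · exfalso
        have h1 : l ∣ 2 ^ 2 := by simpa using h5
        exact h2 ((Nat.prime_dvd_prime_iff_eq h3 Nat.prime_two).1 (h3.dvd_of_dvd_pow h1))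
      · exact h5
    · rintro ⟨h3, h4, -⟩
      exact ⟨h3, Dvd.dvd.mul_left h4 _, by omega⟩
  rw [hc]
  refine prod_congr rfl fun l hl => ?_
  obtain ⟨_, h2, hl'⟩ := mem_core.1 hl
  have hlp := Nat.prime_of_mem_primeFactors hl'
  unfold fac
  rw [hh_four hlp h2 hm, fact_four hlp h2 hm]

/-- a prime different from `2` does not divide `e` -/
theorem not_dvd_e {e q : ℕ} (he : e = 2 ∨ e = 8) (hq : q.Prime) (h2 : q ≠ 2) : ¬ q ∣ e := by
  intro h
  rcases he with rfl | rfl
  · exact h2 ((Nat.prime_dvd_prime_iff_eq hq Nat.prime_two).1 h)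
  · have h1 : q ∣ 2 ^ 3 := by simpa using h
    exact h2 ((Nat.prime_dvd_prime_iff_eq hq Nat.prime_two).1 (hq.dvd_of_dvd_pow h1))

/-- the factor of a common prime -/
theorem cq_eq {e n S T q : ℕ} (he : e = 2 ∨ e = 8) (hsq : Squarefree n) (hn : n % 4 = 3)
    (hS : S ≠ 0) (hT : T ≠ 0) (hq : q ∈ n.primeFactors) (hq3 : q ≠ 3) (hq2 : q ≠ 2) :
    cq n 3 e S T q = hh n (3 * S * (e * T)) q := by
  have he0 : e ≠ 0 := by omega
  have hqp := Nat.prime_of_mem_primeFactors hq
  have hqn := Nat.dvd_of_mem_primeFactors hq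
  obtain ⟨r, hr⟩ := hqn
  have hnq : n / q = r := Nat.div_eq_of_eq_mul_right hqp.pos hr
  have h3 : ¬ q ∣ 3 := fun h => hq3 ((Nat.prime_dvd_prime_iff_eq hqp (by norm_num : Nat.Prime 3)).1 h)
  have h5 : ¬ q ∣ e := not_dvd_e he hqp hq2
  have hf : (3 * S * (e * T)).factorization q = S.factorization q + T.factorization q := by
    rw [Nat.factorization_mul (by omega) (mul_ne_zero he0 hT), Nat.factorization_mul (by norm_num) hS,
      Nat.factorization_mul he0 hT, Finsupp.add_apply, Finsupp.add_apply,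
      Finsupp.add_apply, Nat.factorization_eq_zero_of_not_dvd h3,
      Nat.factorization_eq_zero_of_not_dvd h5, zero_add, zero_add]
  have hqr : q.Coprime r := by
    have h1 : Squarefree (q * r) := hr ▸ hsq
    exact Nat.coprime_of_squarefree_mul h1
  have hJ : jacobiSym (q : ℤ) r = 1 ∨ jacobiSym (q : ℤ) r = -1 :=
    jacobiSym.eq_one_or_neg_one (by rw [Int.gcd_natCast_natCast]; exact hqr)
  have hodd : q % 2 = 1 ∧ r % 2 = 1 := by
    have h1 : (q * r) % 2 = 1 := by rw [← hr]; omega
    rcases Nat.mod_two_eq_zero_or_one q with h | h <;> rcases Nat.mod_two_eq_zero_or_one r with h' | h' <;>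
      simp [Nat.mul_mod, h, h'] at h1 ⊢
  have hrec : jacobiSym (q : ℤ) r = jacobiSym (r : ℤ) q := by
    have h1 : (q * r) % 4 = 3 := by rw [← hr]; exact hn
    have h4 : q % 4 = 1 ∨ q % 4 = 3 := by omega
    have h4' : r % 4 = 1 ∨ r % 4 = 3 := by omega
    rcases h4 with h | h
    · exact jacobiSym.quadratic_reciprocity_one_mod_four h (Nat.odd_iff.2 hodd.2)
    · rcases h4' with h' | h'
      · exact (jacobiSym.quadratic_reciprocity_one_mod_four h' (Nat.odd_iff.2 hodd.1)).symm
      · exfalso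
        rw [Nat.mul_mod, h, h'] at h1
        omega
  have hm : 3 * e * S * T = 3 * S * (e * T) := by ring
  unfold cq hh
  rw [hf, hnq, hm]
  set w := S.factorization q + T.factorization q with hw
  have hpow : jacobiSym ((q ^ w : ℕ) : ℤ) r = (jacobiSym (q : ℤ) r) ^ w := by
    rw [Nat.cast_pow, jacobiSym.pow_left]
  rw [hpow]
  split_ifs with h
  · have h1 : (jacobiSym (q : ℤ) r) ^ w = 1 := by
      rcases hJ with h1 | h1
      · rw [h1, one_pow]
      · rw [h1, h.neg_one_pow]
    rw [h1, mul_one]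
  · have ho : Odd w := Nat.not_even_iff_odd.1 h
    have h1 : (jacobiSym (q : ℤ) r) ^ w = jacobiSym (r : ℤ) q := by
      rw [← hrec]
      rcases hJ with h1 | h1
      · rw [h1, one_pow]
      · rw [h1, ho.neg_one_pow]
    rw [h1]
    have h2 : (-((r * (3 * S * (e * T) / q ^ w) : ℕ) : ℤ)) =
        (r : ℤ) * (-((3 * S * (e * T) / q ^ w : ℕ) : ℤ)) := by push_cast; ring
    rw [h2, jacobiSym.mul_left]
    ring

/-- **evaluation of the divisor sum** -/
theorem WW_eval {e n S T : ℕ} (he : e = 2 ∨ e = 8) (hsq : Squarefree n) (hn : n % 4 = 3)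
    (h3 : n % 3 = 2) (hS : 0 < S) (hT : 0 < T) (hST : 3 * S + e * T = n) :
    WW e n (3 * S) (e * T) = -(fl n 2 (S.factorization 2) * fl n 2 (T.factorization 2) *
      (((3 * S).factorization 3 : ℤ) *
        ∏ l ∈ core (3 * S * (e * T)), fac n (3 * S * (e * T)) l)) := by
  have he0 : 0 < e := by omega
  have hn0 : n ≠ 0 := hsq.ne_zero
  have hn3 : ¬ 3 ∣ n := by omega
  have hJ : ∀ p ∈ n.primeFactors, (p ∣ 3 * S ↔ p ∣ e * T) := by
    intro p hp
    have hpn := Nat.dvd_of_mem_primeFactors hp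
    rw [← hST] at hpn
    exact ⟨fun h => (Nat.dvd_add_right h).1 hpn, fun h => (Nat.dvd_add_left h).1 hpn⟩
  have hl : ∀ l : ℕ, l.Prime → ¬ l ∣ n → l ∣ 3 * S → ¬ l ∣ e * T := by
    intro l hlp hln h3 h5
    apply hln
    rw [← hST]
    exact dvd_add h3 h5
  have hT3 : ¬ 3 ∣ e * T := hl 3 (by norm_num : Nat.Prime 3) hn3 (dvd_mul_right _ _)
  have hJ' : ∀ p ∈ n.primeFactors, (p ∣ S ↔ p ∣ T) := by
    intro p hp
    have hpp := Nat.prime_of_mem_primeFactors hp
    have hpn := Nat.dvd_of_mem_primeFactors hp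
    have e3 : p ∣ 3 * S ↔ p ∣ S := by
      rw [hpp.dvd_mul]
      refine or_iff_right fun h => hn3 ?_
      rw [Nat.prime_dvd_prime_iff_eq hpp (by norm_num : Nat.Prime 3)] at h
      exact h ▸ hpn
    have hp2 : p ≠ 2 := by
      rintro rfl
      omega
    have e5 : p ∣ e * T ↔ p ∣ T := by
      rw [hpp.dvd_mul]
      exact or_iff_right fun h => not_dvd_e he hpp hp2 h
    rw [← e3, ← e5]
    exact hJ p hp
  have hk : Nat.Coprime 3 n := (Nat.Prime.coprime_iff_not_dvd (by norm_num : Nat.Prime 3)).2 hn3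
  have hl5 : Nat.Coprime e n := by
    have h2 : Nat.Coprime 2 n := (Nat.Prime.coprime_iff_not_dvd Nat.prime_two).2 (by omega)
    rcases he with rfl | rfl
    · exact h2
    · exact Nat.Coprime.pow_left 3 h2
  rw [WW_eq he0 hn3 hT, dsum hsq hk hl5 hS hT hJ']
  have hneg : jacobiSym (-((3 : ℕ) : ℤ)) n = -1 := by
    rw [jacobiSym.neg _ (Nat.odd_iff.2 (by omega)), jac3 hn h3, ZMod.χ₄_nat_three_mod_four hn]
    norm_num
  rw [hneg]
  set m := 3 * S * (e * T) with hm
  have hm0 : m ≠ 0 := by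
    rw [hm]
    have : 0 < 3 * S * (e * T) := by positivity
    omega
  set P := insert 3 (insert 2 (core m)) with hP
  have hcp : ∀ l ∈ core m, l.Prime := fun l hl =>
    Nat.prime_of_mem_primeFactors (mem_core.1 hl).2.2
  have hPp : ∀ p ∈ P, p.Prime := by
    intro p hp
    rw [hP, mem_insert, mem_insert] at hp
    rcases hp with rfl | rfl | h
    · exact Nat.prime_three
    · exact Nat.prime_two
    · exact hcp p h
  have hPm : ∀ l : ℕ, l.Prime → l ∣ m → l ∈ P := by
    intro l hlp hlm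
    rw [hP, mem_insert, mem_insert, mem_core]
    by_cases h3 : l = 3
    · exact Or.inl h3
    by_cases h2 : l = 2
    · exact Or.inr (Or.inl h2)
    · exact Or.inr (Or.inr ⟨h3, h2, Nat.mem_primeFactors.2 ⟨hlp, hlm, hm0⟩⟩)
  have hSm : S ∣ m := ⟨3 * (e * T), by rw [hm]; ring⟩
  have hTm : T ∣ m := ⟨3 * S * e, by rw [hm]; ring⟩
  rw [F_prod n hS.ne' P hPp fun p hp => hPm p (Nat.prime_of_mem_primeFactors hp)
      ((Nat.dvd_of_mem_primeFactors hp).trans hSm),
    F_prod n hT.ne' P hPp fun p hp => hPm p (Nat.prime_of_mem_primeFactors hp)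
      ((Nat.dvd_of_mem_primeFactors hp).trans hTm)]
  have n2 : (2 : ℕ) ∉ core m := fun h => (mem_core.1 h).2.1 rfl
  have n3 : (3 : ℕ) ∉ insert 2 (core m) := by
    rw [mem_insert]
    rintro (h | h)
    · omega
    · exact (mem_core.1 h).1 rfl
  -- the factor at 3
  have v3T : T.factorization 3 = 0 :=
    Nat.factorization_eq_zero_of_not_dvd fun h => hT3 (Dvd.dvd.mul_left h _)
  have v3S : (3 * S).factorization 3 = S.factorization 3 + 1 := by
    rw [Nat.factorization_mul (by norm_num) hS.ne', Finsupp.add_apply,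
      (by norm_num : Nat.Prime 3).factorization_self, add_comm]
  have f3 : fl n 3 (S.factorization 3) = ((3 * S).factorization 3 : ℤ) := by
    unfold fl
    rw [jac3 hn h3, v3S]
    simp
  -- the other factors
  have hcore : (∏ l ∈ core m, fl n l (S.factorization l)) * (∏ l ∈ core m, fl n l (T.factorization l)) *
      ∏ q ∈ n.primeFactors.filter (· ∣ S), (1 + cq n 3 e S T q) = ∏ l ∈ core m, fac n m l := by
    have h1 : n.primeFactors.filter (· ∣ S) = (core m).filter (· ∣ n) := by
      ext l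
      rw [mem_filter, mem_filter, mem_core, Nat.mem_primeFactors, Nat.mem_primeFactors]
      constructor
      · rintro ⟨⟨h1, h2, -⟩, h4⟩
        refine ⟨⟨?_, ?_, h1, h4.trans hSm, hm0⟩, h2⟩
        · rintro rfl; exact hn3 h2
        · rintro rfl; omega
      · rintro ⟨⟨g3, g2, h1, h2, -⟩, h4⟩
        refine ⟨⟨h1, h4, hn0⟩, ?_⟩
        have hmem : l ∈ n.primeFactors := Nat.mem_primeFactors.2 ⟨h1, h4, hn0⟩
        rcases (h1.dvd_mul).1 h2 with h | h
        · rcases (h1.dvd_mul).1 h with h' | h'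
          · exact absurd ((Nat.prime_dvd_prime_iff_eq h1 (by norm_num : Nat.Prime 3)).1 h') g3
          · exact h'
        · rcases (h1.dvd_mul).1 h with h' | h'
          · exact absurd h' (not_dvd_e he h1 g2)
          · exact (hJ' l hmem).2 h'
    rw [h1, prod_filter, ← prod_mul_distrib, ← prod_mul_distrib]
    refine prod_congr rfl fun l hlc => ?_
    obtain ⟨g3, g2, hlm⟩ := mem_core.1 hlc
    have hlp := Nat.prime_of_mem_primeFactors hlm
    unfold fac
    by_cases hln : l ∣ n
    · rw [if_pos hln, if_pos hln, fl_dvd hlp hln hn0, fl_dvd hlp hln hn0,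
        cq_eq he hsq hn hS.ne' hT.ne' (Nat.mem_primeFactors.2 ⟨hlp, hln, hn0⟩) g3 g2]
      ring
    · rw [if_neg hln, if_neg hln, mul_one]
      have nl3 : ¬ l ∣ 3 := fun h => g3 ((Nat.prime_dvd_prime_iff_eq hlp (by norm_num : Nat.Prime 3)).1 h)
      have nl5 : ¬ l ∣ e := not_dvd_e he hlp g2
      have hf : m.factorization l = S.factorization l + T.factorization l := by
        rw [hm, Nat.factorization_mul (by omega) (mul_ne_zero he0.ne' hT.ne'),
          Nat.factorization_mul (by norm_num) hS.ne',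
          Nat.factorization_mul he0.ne' hT.ne', Finsupp.add_apply, Finsupp.add_apply,
          Finsupp.add_apply, Nat.factorization_eq_zero_of_not_dvd nl3,
          Nat.factorization_eq_zero_of_not_dvd nl5, zero_add, zero_add]
      have hodd : l % 2 = 1 := by
        have := hlp.eq_two_or_odd
        tauto
      rw [jac_neg hn hodd]
      have hfl : ∀ v, fl n l v = ∑ j ∈ range (v + 1), jacobiSym (l : ℤ) n ^ j := fun _ => rfl
      rw [← hfl, hf]
      by_cases hlS : l ∣ 3 * S
      · have hlT := hl l hlp hln hlS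
        have h0 : T.factorization l = 0 :=
          Nat.factorization_eq_zero_of_not_dvd fun h => hlT (Dvd.dvd.mul_left h _)
        rw [h0, fl_zero, mul_one, add_zero]
      · have h0 : S.factorization l = 0 :=
          Nat.factorization_eq_zero_of_not_dvd fun h => hlS (Dvd.dvd.mul_left h _)
        rw [h0, fl_zero, one_mul, zero_add]
  rw [hP, prod_insert n3, prod_insert n2, prod_insert n3,
    prod_insert n2, v3T, fl_zero, f3, ← hcore]
  ring

/-! ### C2A -/

theorem t_C2A : S_C2A := by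
  intro n hc e he T hT hTn h5 h3
  obtain ⟨hsq, h24⟩ := hc
  have hn4 : n % 4 = 3 := by omega
  have hn3 : n % 3 = 2 := by omega
  obtain ⟨T1, rfl⟩ := h5
  obtain ⟨S1, hS1⟩ := h3
  have he0 : 0 < e := by omega
  have hS0 : 0 < S1 := by omega
  have hT0 : 0 < T1 := by
    rcases Nat.eq_zero_or_pos T1 with h | h
    · rw [h] at hT
      omega
    · exact h
  have hST : 3 * S1 + e * T1 = n := by omega
  rw [hS1, WW_eval he hsq hn4 hn3 hS0 hT0 hST]
  have hm0 : 3 * S1 * (e * T1) ≠ 0 := by
    have : 0 < 3 * S1 * (e * T1) := by positivity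
    omega
  have e5 : 4 * (3 * S1) * (e * T1) = 4 * (3 * S1 * (e * T1)) := by ring
  have hne : ¬ 2 ∣ e * T1 → False := by
    intro h
    apply h
    rcases he with rfl | rfl
    · exact dvd_mul_right _ _
    · exact Dvd.dvd.mul_right (by norm_num) _
  have h2T : 2 ∣ e * T1 := by
    by_contra h
    exact hne h
  have hS2 : ¬ 2 ∣ S1 := by
    intro h
    have h1 : 2 ∣ 3 * S1 := Dvd.dvd.mul_left h 3
    have h2 : 2 ∣ n := by
      rw [← hST]
      exact dvd_add h1 h2T
    omega
  have v2S : S1.factorization 2 = 0 := Nat.factorization_eq_zero_of_not_dvd hS2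
  have v3T : (e * T1).factorization 3 = 0 := by
    apply Nat.factorization_eq_zero_of_not_dvd
    intro h
    have h1 : 3 ∣ n := by
      rw [← hST]
      exact dvd_add (dvd_mul_right _ _) h
    omega
  have v2e : ∃ k : ℕ, e.factorization 2 = 2 * k + 1 := by
    rcases he with rfl | rfl
    · exact ⟨0, by rw [Nat.prime_two.factorization_self]⟩
    · exact ⟨1, by rw [show (8 : ℕ) = 2 ^ 3 by norm_num, Nat.prime_two.factorization_pow]; simp⟩
  obtain ⟨k, hk⟩ := v2e
  have v2m : (3 * S1 * (e * T1)).factorization 2 = 2 * k + 1 + T1.factorization 2 := by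
    rw [Nat.factorization_mul (by omega) (mul_ne_zero he0.ne' hT0.ne'),
      Nat.factorization_mul (by norm_num) hS0.ne', Nat.factorization_mul he0.ne' hT0.ne',
      Finsupp.add_apply, Finsupp.add_apply, Finsupp.add_apply, v2S, hk,
      Nat.factorization_eq_zero_of_not_dvd (by norm_num : ¬ 2 ∣ 3)]
    omega
  have v3m : (3 * S1 * (e * T1)).factorization 3 = (3 * S1).factorization 3 := by
    rw [Nat.factorization_mul (by omega) (mul_ne_zero he0.ne' hT0.ne'), Finsupp.add_apply, v3T,
      add_zero]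
  have hfl : fl n 2 (T1.factorization 2) =
      if Odd ((4 * (3 * S1 * (e * T1))).factorization 2) then 1 else 0 := by
    unfold fl
    rw [jac2 hn4, if_neg (by omega), sum_alt, fact2_four hm0, v2m]
    have : Odd (T1.factorization 2 + 1) ↔ Odd (2 * k + 1 + T1.factorization 2 + 2) := by
      constructor
      · rintro ⟨j, hj⟩
        exact ⟨j + k + 1, by omega⟩
      · rintro ⟨j, hj⟩
        exact ⟨j - k - 1, by omega⟩
    simp only [this]
  rw [v2S, fl_zero, hfl, e5]
  unfold loc3
  have hc4 : ∏ l ∈ ((4 * (3 * S1 * (e * T1))).primeFactors.erase 2).erase 3,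
      fac n (4 * (3 * S1 * (e * T1))) l = ∏ l ∈ core (3 * S1 * (e * T1)),
      fac n (3 * S1 * (e * T1)) l := core_four hm0
  rw [hc4, fact_four Nat.prime_three (by norm_num) hm0, v3m]
  split_ifs with h
  · ring
  · ring

end Pool.Agent.Run7.h483.P24
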