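import Pool.Agent.Run7.h483.P15.U
import Pool.Agent.Run7.h483.P15.C2
import Pool.Agent.Run7.h135.P24.Defs

/-!
# P24 (helper483): the product formula for the symbols of the local densities
-/

set_option autoImplicit false

namespace Pool.Agent.Run7.h483.P24

open Finset
open Pool.Agent.Z700 (hh fac)
open Pool.Agent.Run7.h483.P15 (jac_neg jac_prod_left jac_nz jac_nz' jac_sq prod_pF jac_prod jac_div
  G not_dvd_G jac2 dd sum_alt)

/-- the primes of `D` which are odd and do not divide `n` -/
def Sp (n D : ℕ) : Finset ℕ := (D.primeFactors.erase 2).filter fun l => ¬ l ∣ n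

theorem mem_Sp {n D l : ℕ} : l ∈ Sp n D ↔ (l ≠ 2 ∧ l.Prime ∧ l ∣ D ∧ D ≠ 0) ∧ ¬ l ∣ n := by
  unfold Sp
  rw [mem_filter, mem_erase, Nat.mem_primeFactors]

theorem decomp {n D : ℕ} (hn2 : n % 2 = 1) (hD : D ≠ 0) :
    D = 2 ^ D.factorization 2 * (G D n.primeFactors * G D (Sp n D)) := by
  have hn0 : n ≠ 0 := by omega
  have h1 : ∏ l ∈ D.primeFactors, l ^ D.factorization l = D := by
    conv_rhs => rw [← Nat.prod_factorization_pow_eq_self hD]
    rfl
  have hT : D.primeFactors ⊆ insert 2 (n.primeFactors ∪ Sp n D) := by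
    intro l hl
    have hl' := Nat.mem_primeFactors.1 hl
    rw [mem_insert, mem_union, mem_Sp, Nat.mem_primeFactors]
    by_cases h2 : l = 2
    · exact Or.inl h2
    · right
      by_cases h3 : l ∣ n
      · exact Or.inl ⟨hl'.1, h3, hn0⟩
      · exact Or.inr ⟨⟨h2, hl'⟩, h3⟩
  have h2 : ∏ l ∈ insert 2 (n.primeFactors ∪ Sp n D), l ^ D.factorization l =
      ∏ l ∈ D.primeFactors, l ^ D.factorization l := by
    refine (prod_subset hT fun l _ hl => ?_).symm
    rw [← Nat.support_factorization, Finsupp.notMem_support_iff] at hl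
    rw [hl, pow_zero]
  have h3 : 2 ∉ n.primeFactors ∪ Sp n D := by
    rw [mem_union, mem_Sp, Nat.mem_primeFactors]
    rintro (h | h)
    · have := h.2.1
      omega
    · exact h.1.1 rfl
  have h4 : Disjoint n.primeFactors (Sp n D) := by
    rw [disjoint_left]
    intro l hl hl'
    exact (mem_Sp.1 hl').2 (Nat.dvd_of_mem_primeFactors hl)
  rw [h1, prod_insert h3, prod_union h4] at h2
  exact h2.symm

/-- the symbol at a prime of `n` -/
theorem hh_eq {n D q : ℕ} (hsq : Squarefree n) (hn : n % 4 = 3) (hq : q ∈ n.primeFactors) :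
    hh n D q = jacobiSym (-((D / q ^ D.factorization q : ℕ) : ℤ)) q *
      jacobiSym ((q ^ D.factorization q : ℕ) : ℤ) (n / q) := by
  have hqp := Nat.prime_of_mem_primeFactors hq
  have hqn := Nat.dvd_of_mem_primeFactors hq
  obtain ⟨r, hr⟩ := hqn
  have hnq : n / q = r := Nat.div_eq_of_eq_mul_right hqp.pos hr
  have hqr : q.Coprime r := by
    have h1 : Squarefree (q * r) := hr ▸ hsq
    exact Nat.coprime_of_squarefree_mul h1
  have hJ : jacobiSym (q : ℤ) r = 1 ∨ jacobiSym (q : ℤ) r = -1 :=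
    jacobiSym.eq_one_or_neg_one (by rw [Int.gcd_natCast_natCast]; exact hqr)
  have hodd : q % 2 = 1 ∧ r % 2 = 1 := by
    have h1 : (q * r) % 2 = 1 := by rw [← hr]; omega
    rcases Nat.mod_two_eq_zero_or_one q with h | h <;> rcases Nat.mod_two_eq_zero_or_one r with h' | h' <;>
      simp [Nat.mul_mod, h, h'] at h1 ⊢
  have hrec : jacobiSym (q : ℤ) r = jacobiSym (r : ℤ) q := by
    have h1 : (q * r) % 4 = 3 := by rw [← hr]; exact hn
    have h4 : q % 4 = 1 ∨ q % 4 = 3 := by omega
    have h4' : r % 4 = 1 ∨ r % 4 = 3 := by omega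
    rcases h4 with h | h
    · exact jacobiSym.quadratic_reciprocity_one_mod_four h (Nat.odd_iff.2 hodd.2)
    · rcases h4' with h' | h'
      · exact (jacobiSym.quadratic_reciprocity_one_mod_four h' (Nat.odd_iff.2 hodd.1)).symm
      · exfalso
        rw [Nat.mul_mod, h, h'] at h1
        omega
  unfold hh
  rw [hnq]
  set w := D.factorization q with hw
  have hpow : jacobiSym ((q ^ w : ℕ) : ℤ) r = (jacobiSym (q : ℤ) r) ^ w := by
    rw [Nat.cast_pow, jacobiSym.pow_left]
  rw [hpow]
  split_ifs with h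
  · have h1 : (jacobiSym (q : ℤ) r) ^ w = 1 := by
      rcases hJ with h1 | h1
      · rw [h1, one_pow]
      · rw [h1, h.neg_one_pow]
    rw [h1, mul_one]
  · have ho : Odd w := Nat.not_even_iff_odd.1 h
    have h1 : (jacobiSym (q : ℤ) r) ^ w = jacobiSym (r : ℤ) q := by
      rw [← hrec]
      rcases hJ with h1 | h1
      · rw [h1, one_pow]
      · rw [h1, ho.neg_one_pow]
    rw [h1]
    have h2 : (-((r * (D / q ^ w) : ℕ) : ℤ)) =
        (r : ℤ) * (-((D / q ^ w : ℕ) : ℤ)) := by push_cast; ring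
    rw [h2, jacobiSym.mul_left]
    ring

/-- the product of the symbols at the primes of `n` -/
theorem prod_hh {n D : ℕ} (hsq : Squarefree n) (hn : n % 4 = 3) (hD : D ≠ 0) :
    ∏ q ∈ n.primeFactors, hh n D q =
      jacobiSym (-((2 ^ D.factorization 2 * G D (Sp n D) : ℕ) : ℤ)) n := by
  set P := n.primeFactors with hP
  set R := 2 ^ D.factorization 2 * G D (Sp n D) with hR
  have hPp : ∀ q ∈ P, q.Prime := fun q hq => Nat.prime_of_mem_primeFactors hq
  have hdec := decomp (n := n) (by omega) hD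
  have hdiv : ∀ q ∈ P, D / q ^ D.factorization q = R * G D (P.erase q) := by
    intro q hq
    have h1 : G D P = q ^ D.factorization q * G D (P.erase q) :=
      (mul_prod_erase P (fun q => q ^ D.factorization q) hq).symm
    have h2 : D = q ^ D.factorization q * (R * G D (P.erase q)) := by
      calc D = 2 ^ D.factorization 2 * (G D P * G D (Sp n D)) := hdec
        _ = q ^ D.factorization q * (R * G D (P.erase q)) := by rw [h1, hR]; ring
    exact Nat.div_eq_of_eq_mul_right (pow_pos (hPp q hq).pos _) h2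
  have e1 : ∀ q ∈ P, hh n D q = (jacobiSym (-(R : ℤ)) q * jacobiSym (G D (P.erase q) : ℤ) q) *
      ∏ l ∈ P, (if l = q then 1 else jacobiSym ((q ^ D.factorization q : ℕ) : ℤ) l) := by
    intro q hq
    rw [hh_eq hsq hn hq, hdiv q hq, jac_div _ hsq hq, ← hP]
    congr 1
    · rw [← jacobiSym.mul_left]
      congr 1
      push_cast
      ring
    · rw [← mul_prod_erase P _ hq, if_pos rfl, one_mul]
      exact prod_congr rfl fun l hl => (if_neg (ne_of_mem_erase hl)).symm
  rw [prod_congr rfl e1, prod_mul_distrib, prod_mul_distrib, prod_comm]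
  have e2 : ∀ l ∈ P, ∏ q ∈ P, (if l = q then (1 : ℤ) else
      jacobiSym ((q ^ D.factorization q : ℕ) : ℤ) l) = jacobiSym (G D (P.erase l) : ℤ) l := by
    intro l hl
    unfold G
    rw [jac_prod_left, ← mul_prod_erase P _ hl, if_pos rfl, one_mul]
    exact prod_congr rfl fun q hq => if_neg (Ne.symm (ne_of_mem_erase hq))
  rw [prod_congr rfl e2, mul_assoc, ← prod_mul_distrib]
  have e3 : ∀ l ∈ P, jacobiSym (G D (P.erase l) : ℤ) l * jacobiSym (G D (P.erase l) : ℤ) l = 1 := by
    intro l hl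
    refine jac_sq ((jac_nz (hPp l hl) _).2 ?_)
    exact not_dvd_G D (fun q hq => hPp q (mem_of_mem_erase hq)) (hPp l hl) (notMem_erase l P)
  rw [prod_congr rfl e3, prod_const_one, mul_one, ← jac_prod _ hsq]

/-- the product of the symbols at the other odd primes -/
theorem prod_Sp {n D : ℕ} (hn : n % 4 = 3) :
    ∏ l ∈ Sp n D, jacobiSym (-(n : ℤ)) l ^ D.factorization l = jacobiSym (G D (Sp n D) : ℤ) n := by
  unfold G
  rw [jac_prod_left]
  refine prod_congr rfl fun l hl => ?_
  obtain ⟨⟨h2, hl', _⟩, _⟩ := mem_Sp.1 hl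
  have hodd : l % 2 = 1 := by
    have := hl'.eq_two_or_odd
    tauto
  rw [jac_neg hn hodd, Nat.cast_pow, jacobiSym.pow_left]

/-- **the product formula** -/
theorem hil {n D : ℕ} (hsq : Squarefree n) (hn : n % 4 = 3) (hD : D ≠ 0) :
    (∏ q ∈ n.primeFactors, hh n D q) * ∏ l ∈ Sp n D, jacobiSym (-(n : ℤ)) l ^ D.factorization l =
      -(jacobiSym ((2 : ℕ) : ℤ) n) ^ D.factorization 2 := by
  rw [prod_hh hsq hn hD, prod_Sp hn]
  have h1 : (-((2 ^ D.factorization 2 * G D (Sp n D) : ℕ) : ℤ)) =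
      (-1) * (((2 : ℕ) : ℤ) ^ D.factorization 2 * (G D (Sp n D) : ℤ)) := by
    push_cast
    ring
  have h2 : jacobiSym (-1) n = -1 := by
    rw [jacobiSym.at_neg_one (Nat.odd_iff.2 (by omega)), ZMod.χ₄_nat_three_mod_four hn]
  have h3 : jacobiSym (G D (Sp n D) : ℤ) n * jacobiSym (G D (Sp n D) : ℤ) n = 1 := by
    apply jac_sq
    rw [Ne, jacobiSym.eq_zero_iff, not_and_or, not_not, not_not]
    right
    rw [Int.gcd_natCast_natCast, ← Nat.coprime_iff_gcd_eq_one]
    rw [Nat.coprime_comm]
    have h4 : Nat.Coprime (∏ p ∈ n.primeFactors, p) (G D (Sp n D)) := by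
      refine Nat.Coprime.prod_left fun q hq => ?_
      have hqp := Nat.prime_of_mem_primeFactors hq
      refine (Nat.Prime.coprime_iff_not_dvd hqp).2 ?_
      refine not_dvd_G D (fun l hl => (mem_Sp.1 hl).1.2.1) hqp fun h => ?_
      exact (mem_Sp.1 h).2 (Nat.dvd_of_mem_primeFactors hq)
    rwa [prod_pF hsq] at h4
  rw [h1, jacobiSym.mul_left, jacobiSym.mul_left, jacobiSym.pow_left, h2]
  linear_combination (-(jacobiSym ((2 : ℕ) : ℤ) n) ^ D.factorization 2) * h3

/-- a vanishing local factor for `n ≡ 7 mod 8` -/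
theorem no_seven {n D : ℕ} (hsq : Squarefree n) (hn : n % 8 = 7) (hD : D ≠ 0)
    (hR : ∀ l ∈ n.primeFactors, ¬ l ∣ D → jacobiSym (-(D : ℤ)) l = 1) :
    ∃ l ∈ D.primeFactors.erase 2, fac n D l = 0 ∧ (l ∣ n ∨ jacobiSym (-(n : ℤ)) l ≠ 1) := by
  by_contra hcon
  push Not at hcon
  have hn4 : n % 4 = 3 := by omega
  have hn0 : n ≠ 0 := by omega
  have h := hil hsq hn4 hD
  rw [jac2 hn4, if_pos hn, one_pow] at h
  have e1 : ∏ q ∈ n.primeFactors, hh n D q = 1 := by
    refine prod_eq_one fun q hq => ?_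
    have hqp := Nat.prime_of_mem_primeFactors hq
    have hqn := Nat.dvd_of_mem_primeFactors hq
    by_cases hqD : q ∣ D
    · have hq2 : q ≠ 2 := by
        rintro rfl
        omega
      have hmem : q ∈ D.primeFactors.erase 2 :=
        mem_erase.2 ⟨hq2, Nat.mem_primeFactors.2 ⟨hqp, hqD, hD⟩⟩
      have h1 : fac n D q ≠ 0 := fun h0 => (hcon q hmem h0).1 hqn
      have h2 : fac n D q = 1 + hh n D q := by
        unfold fac
        rw [if_pos hqn]
      have h3 : hh n D q = 1 ∨ hh n D q = -1 := by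
        have h4 : ¬ q ∣ D / q ^ D.factorization q := Nat.not_dvd_ordCompl hqp hD
        have h5 : ¬ q ∣ n / q * (D / q ^ D.factorization q) := by
          intro h5
          rcases (hqp.dvd_mul).1 h5 with h6 | h6
          · obtain ⟨k, hk⟩ := h6
            have h7 : q * q ∣ n := by
              refine ⟨k, ?_⟩
              rw [mul_assoc, ← hk]
              exact (Nat.mul_div_cancel' hqn).symm
            exact hqp.one_lt.ne' (Nat.isUnit_iff.1 (hsq q h7))
          · exact h4 h6
        have h6 : hh n D q ≠ 0 := by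
          unfold hh
          split_ifs with h6
          · exact (jac_nz' hqp _).2 h4
          · exact (jac_nz' hqp _).2 h5
        have h7 : hh n D q = 0 ∨ hh n D q = 1 ∨ hh n D q = -1 := by
          unfold hh
          split_ifs with h6
          · exact jacobiSym.trichotomy _ _
          · exact jacobiSym.trichotomy _ _
        rcases h7 with h7 | h7 | h7
        · exact absurd h7 h6
        · exact Or.inl h7
        · exact Or.inr h7
      rcases h3 with h3 | h3
      · exact h3
      · exfalso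
        apply h1
        rw [h2, h3]
        norm_num
    · have h1 : D.factorization q = 0 := Nat.factorization_eq_zero_of_not_dvd hqD
      unfold hh
      rw [h1, if_pos (by decide), pow_zero, Nat.div_one]
      exact hR q hq hqD
  have e2 : ∏ l ∈ Sp n D, jacobiSym (-(n : ℤ)) l ^ D.factorization l = 1 := by
    refine prod_eq_one fun l hl => ?_
    obtain ⟨⟨h2, hlp, hlD, _⟩, hln⟩ := mem_Sp.1 hl
    have hmem : l ∈ D.primeFactors.erase 2 := mem_erase.2 ⟨h2, Nat.mem_primeFactors.2 ⟨hlp, hlD, hD⟩⟩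
    have h3 := (jac_nz' hlp n).2 hln
    rcases jacobiSym.trichotomy (-(n : ℤ)) l with h4 | h4 | h4
    · exact absurd h4 h3
    · rw [h4, one_pow]
    · rw [h4]
      rcases Nat.even_or_odd (D.factorization l) with h5 | h5
      · exact h5.neg_one_pow
      · exfalso
        have h6 : fac n D l = 0 := by
          unfold fac
          rw [if_neg hln, h4, sum_alt, if_neg (Nat.not_odd_iff_even.2 h5.add_one)]
        have h7 := (hcon l hmem h6).2
        rw [h4] at h7
        exact absurd h7 (by norm_num)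
  rw [e1, e2] at h
  norm_num at h

/-- the difference `N - b²` is a negative square modulo the primes of `N` -/
theorem sq_jac {N l : ℕ} {b : ℤ} (hl : l.Prime) (hlN : l ∣ N) (h0 : dd N b ≠ 0)
    (hnd : ¬ l ∣ dd N b) : jacobiSym (-(dd N b : ℤ)) l = 1 := by
  have h1 : (dd N b : ℤ) = N - b ^ 2 := by
    unfold dd at h0 ⊢
    omega
  have h2 : ¬ (l : ℤ) ∣ b := by
    intro h
    apply hnd
    have h3 : (l : ℤ) ∣ (dd N b : ℤ) := by
      rw [h1]
      exact dvd_sub (by exact_mod_cast hlN) (dvd_pow h (by norm_num))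
    exact_mod_cast h3
  have h3 : jacobiSym (-(dd N b : ℤ)) l = jacobiSym (b ^ 2) l := by
    refine jacobiSym.mod_left' ?_
    rw [Int.emod_emod_of_dvd _ (dvd_refl _) |>.symm, Int.emod_emod_of_dvd _ (dvd_refl _)]
    refine Int.emod_eq_emod_iff_emod_sub_eq_zero.2 (Int.emod_eq_zero_of_dvd ?_)
    have h4 : (-(dd N b : ℤ)) - b ^ 2 = -(N : ℤ) := by
      rw [h1]
      ring
    rw [h4, dvd_neg]
    exact_mod_cast hlN
  rw [h3]
  refine jacobiSym.sq_one' ?_
  rw [Int.gcd_comm]
  exact (Int.isCoprime_iff_gcd_eq_one.1 (((Nat.prime_iff_prime_int.1 hl).coprime_iff_not_dvd).2 h2))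

end Pool.Agent.Run7.h483.P24
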