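import Pool.Agent.Run7.h483.P24.U
import Pool.Agent.Run7.h483.P15.Par
import Pool.Agent.Run7.h135.P24.Rel
import Pool.Agent.Run7.h135.P24.CP
import Pool.Agent.Run7.h135.P24.R

/-!
# P24 (helper483): the pairs with given inner products and the local densities
-/

set_option autoImplicit false

namespace Pool.Agent.Run7.h483.P24

open Finset
open Pool.Agent.N969.P15 (V3)
open Pool.Agent.Run7.h135.P24 (ip vec vef rr rr0 cc cp cp0 cp3 loc loc3 cauchy pc pc0 cp3_loc rel22)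
open Pool.Agent.Run7.h483.P15 (dd tri)

/-! ### sums over the pairs -/

theorem ip_vec {n : ℤ} {v : V3} (hv : v ∈ vec n) : ip v v = n := by
  rw [vec, mem_filter, vef, mem_filter] at hv
  exact hv.1.2

theorem ip_Ioo {n1 n2 B : ℤ} (hB : n1 * n2 < B ^ 2) (hB0 : 0 < B) {v w : V3} (hv : v ∈ vec n1)
    (hw : w ∈ vec n2) : ip v w ∈ Ioo (-B) B := by
  rw [mem_Ioo]
  exact cauchy (ip_vec hv) (ip_vec hw) hB hB0

theorem sum_pairs {n1 n2 B : ℤ} (hB : n1 * n2 < B ^ 2) (hB0 : 0 < B) (G : ℤ → V3 → V3 → ℤ) :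
    ∑ b ∈ Ioo (-B) B, ∑ v ∈ vec n1, ∑ w ∈ vec n2, (if ip v w = b then G b v w else 0) =
    ∑ v ∈ vec n1, ∑ w ∈ vec n2, G (ip v w) v w := by
  rw [sum_comm]
  refine sum_congr rfl fun v hv => ?_
  rw [sum_comm]
  refine sum_congr rfl fun w hw => ?_
  rw [sum_ite_eq, if_pos (ip_Ioo hB hB0 hv hw)]

theorem cp_sum (n1 b n2 : ℤ) :
    (cp n1 b n2 : ℤ) = ∑ v ∈ vec n1, ∑ w ∈ vec n2, if ip v w = b then 1 else 0 := by
  unfold cp
  rw [card_filter, sum_product]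
  push_cast
  rfl

/-- all the pairs -/
theorem cp_all {n1 n2 B : ℤ} (hB : n1 * n2 < B ^ 2) (hB0 : 0 < B) :
    ∑ b ∈ Ioo (-B) B, (cp n1 b n2 : ℤ) = rr n1 * rr n2 := by
  rw [sum_congr rfl fun b _ => cp_sum n1 b n2, sum_pairs hB hB0 fun _ _ _ => 1]
  unfold rr
  simp

/-- the pairs with inner product divisible by `3` -/
theorem cp0_all {n1 n2 B : ℤ} (hB : n1 * n2 < B ^ 2) (hB0 : 0 < B) :
    (cp0 n1 n2 : ℤ) = ∑ b ∈ Ioo (-B) B, if (3 : ℤ) ∣ b then (cp n1 b n2 : ℤ) else 0 := by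
  have h1 : ∀ b : ℤ, (if (3 : ℤ) ∣ b then (cp n1 b n2 : ℤ) else 0) =
      ∑ v ∈ vec n1, ∑ w ∈ vec n2, if ip v w = b then (if (3 : ℤ) ∣ b then 1 else 0) else 0 := by
    intro b
    rw [cp_sum]
    by_cases h : (3 : ℤ) ∣ b
    · simp only [h, if_true]
    · simp only [h, if_false, ite_self, sum_const_zero]
  rw [sum_congr rfl fun b _ => h1 b, sum_pairs hB hB0 fun b _ _ => if (3 : ℤ) ∣ b then 1 else 0]
  unfold cp0
  rw [card_filter, sum_product]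
  push_cast
  rfl

/-- the pairs with a common line -/
theorem tot22 {n1 n2 : ℕ} {B : ℤ} (a1 : n1 % 3 = 2) (a2 : n2 % 3 = 2)
    (hB : (n1 : ℤ) * n2 < B ^ 2) (hB0 : 0 < B) :
    3 * ∑ b ∈ Ioo (-B) B, (if (3 : ℤ) ∣ b then 0 else ((cp n1 b n2 : ℤ) + cp3 n1 b n2)) =
      3 * rr n1 * rr n2 + cc n1 * cc n2 := by
  have h1 := rel22 n1 n2 a1 a2 1 (Or.inl rfl) B hB hB0
  have h2 := rel22 n1 n2 a1 a2 2 (Or.inr rfl) B hB hB0
  have e : ∑ b ∈ Ioo (-B) B, (if (3 : ℤ) ∣ b then 0 else ((cp n1 b n2 : ℤ) + cp3 n1 b n2)) =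
      ∑ b ∈ (Ioo (-B) B).filter (fun b : ℤ => b % 3 = 1), ((cp n1 b n2 : ℤ) + cp3 n1 b n2) +
      ∑ b ∈ (Ioo (-B) B).filter (fun b : ℤ => b % 3 = 2), ((cp n1 b n2 : ℤ) + cp3 n1 b n2) := by
    rw [sum_filter, sum_filter, ← sum_add_distrib]
    refine sum_congr rfl fun b _ => ?_
    have h3 : b % 3 = 0 ∨ b % 3 = 1 ∨ b % 3 = 2 := by omega
    rcases h3 with h3 | h3 | h3
    · rw [if_pos (Int.dvd_of_emod_eq_zero h3), if_neg (by omega), if_neg (by omega), add_zero]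
    · rw [if_neg (by omega), if_pos h3, if_neg (by omega), add_zero]
    · rw [if_neg (by omega), if_neg (by omega), if_pos h3, zero_add]
  rw [e]
  linarith

theorem sum_three (f : ℤ → ℤ) (B : ℤ) :
    ∑ b ∈ Ioo (-(3 * B)) (3 * B), (if (3 : ℤ) ∣ b then f b else 0) =
      ∑ c ∈ Ioo (-B) B, f (3 * c) := by
  rw [← sum_filter]
  refine sum_nbij' (fun b => b / 3) (fun c => 3 * c) ?_ ?_ ?_ ?_ ?_
  · intro b hb
    simp only [mem_filter, mem_Ioo] at hb ⊢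
    omega
  · intro c hc
    simp only [mem_filter, mem_Ioo] at hc ⊢
    omega
  · intro b hb
    simp only [mem_filter, mem_Ioo] at hb
    omega
  · intro c _
    omega
  · intro b hb
    simp only [mem_filter, mem_Ioo] at hb
    congr 1
    omega

/-! ### the pair counts -/

theorem cp_zero {n1 n2 : ℕ} {b : ℤ} (h : (n1 : ℤ) * n2 < b ^ 2) :
    cp n1 b n2 = 0 ∧ cp3 n1 b n2 = 0 := by
  have hb : b ≠ 0 := by
    rintro rfl
    have h1 : (0 : ℤ) ≤ (n1 : ℤ) * n2 := by positivity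
    rw [zero_pow two_ne_zero] at h
    linarith
  have key : ∀ v ∈ vec n1, ∀ w ∈ vec n2, ip v w ≠ b := by
    intro v hv w hw h1
    have h2 := cauchy (B := |b|) (ip_vec hv) (ip_vec hw) (by rw [sq_abs]; exact h) (abs_pos.2 hb)
    rw [h1] at h2
    rcases abs_cases b with h3 | h3 <;> omega
  constructor
  · unfold cp
    rw [card_eq_zero, filter_eq_empty_iff]
    intro q hq h1
    rw [mem_product] at hq
    exact key _ hq.1 _ hq.2 h1
  · unfold cp3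
    rw [card_eq_zero, filter_eq_empty_iff]
    rintro q hq ⟨h1, _⟩
    rw [mem_product] at hq
    exact key _ hq.1 _ hq.2 h1

theorem cp_loc {n1 n2 : ℕ} (hs : Squarefree n1) (h8 : n1 % 8 = 3) (h8' : n2 % 8 = 3)
    (hN : ¬ IsSquare (n1 * n2)) (b : ℤ) : (cp n1 b n2 : ℤ) =
      if (16 : ℤ) ∣ n1 + n2 - 2 * b then 3 * loc n1 (dd (n1 * n2) b) else 0 := by
  by_cases hb : (16 : ℤ) ∣ n1 + n2 - 2 * b
  · rw [if_pos hb]
    rcases tri hN b with h | ⟨h1, h2⟩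
    · push_cast at h
      rw [(cp_zero h).1]
      unfold dd
      have : ((n1 * n2 : ℕ) : ℤ) - b ^ 2 ≤ 0 := by push_cast; linarith
      rw [Int.toNat_of_nonpos this, loc_zero]
      simp
    · exact pc n1 n2 b _ hs h8 h8' hb h1 (by rw [h2]; push_cast; ring)
  · rw [if_neg hb, pc0 n1 n2 b hb]
    rfl

theorem cp3_lr {n1 n2 : ℕ} (hs : Squarefree n1) (h8 : n1 % 8 = 3) (h8' : n2 % 8 = 3)
    (h3 : n1 % 3 = 2) (h3' : n2 % 3 = 2)
    (hN : ¬ IsSquare (n1 * n2)) {b : ℤ} (hb : ¬ (3 : ℤ) ∣ b) (hc : (16 : ℤ) ∣ n1 + n2 - 2 * b) :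
    (cp n1 b n2 : ℤ) + cp3 n1 b n2 = 6 * loc3 n1 (dd (n1 * n2) b) := by
  rcases tri hN b with h | ⟨h1, h2⟩
  · push_cast at h
    rw [(cp_zero h).1, (cp_zero h).2]
    unfold dd
    have : ((n1 * n2 : ℕ) : ℤ) - b ^ 2 ≤ 0 := by push_cast; linarith
    rw [Int.toNat_of_nonpos this, loc3_eq, lr_zero]
    simp
  · exact cp3_loc n1 n2 b _ hs h8 h8' h3 h3' hb hc h1 (by rw [h2]; push_cast; ring)

theorem cp3_none {n1 n2 : ℕ} {b : ℤ} (hc : ¬ (16 : ℤ) ∣ n1 + n2 - 2 * b) :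
    (cp n1 b n2 : ℤ) + cp3 n1 b n2 = 0 := by
  have h1 : cp3 (n1 : ℤ) b n2 ≤ cp n1 b n2 := by
    unfold cp3 cp
    refine card_le_card fun q hq => ?_
    rw [mem_filter] at hq ⊢
    exact ⟨hq.1, hq.2.1⟩
  have h2 := pc0 n1 n2 b hc
  rw [h2] at h1 ⊢
  have h3 : cp3 (n1 : ℤ) b n2 = 0 := Nat.le_zero.1 h1
  rw [h3]
  rfl

/-- the sum of the densities -/
theorem sumA {n1 n2 : ℕ} (hs : Squarefree n1) (h8 : n1 % 8 = 3) (h8' : n2 % 8 = 3)
    (h3 : n1 % 3 = 2) (h3' : n2 % 3 = 2) (hN : ¬ IsSquare (n1 * n2)) {B : ℤ}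
    (hB : (n1 : ℤ) * n2 < B ^ 2) (hB0 : 0 < B) :
    18 * ∑ b ∈ Ioo (-B) B, (if (16 : ℤ) ∣ n1 + n2 - 2 * b then lr n1 (dd (n1 * n2) b) else 0) =
      3 * rr n1 * rr n2 - cc n1 * cc n2 := by
  have e1 := cp_all hB hB0
  have e2 := tot22 h3 h3' hB hB0
  have e3 : ∀ b ∈ Ioo (-B) B, 6 * (if (16 : ℤ) ∣ n1 + n2 - 2 * b then
      lr n1 (dd (n1 * n2) b) else 0) = 2 * (cp n1 b n2 : ℤ) -
      (if (3 : ℤ) ∣ b then 0 else ((cp n1 b n2 : ℤ) + cp3 n1 b n2)) := by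
    intro b _
    by_cases hc : (16 : ℤ) ∣ n1 + n2 - 2 * b
    · rw [if_pos hc]
      by_cases hb : (3 : ℤ) ∣ b
      · rw [if_pos hb, cp_loc hs h8 h8' hN, if_pos hc, loc_two h3]
        rcases tri hN b with h | ⟨k1, k2⟩
        · have h0 : dd (n1 * n2) b = 0 := by
            unfold dd
            exact Int.toNat_of_nonpos (by linarith)
          rw [h0, lr_zero]
          ring
        · have h0 : (dd (n1 * n2) b).factorization 3 = 0 := by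
            refine Nat.factorization_eq_zero_of_not_dvd fun h => ?_
            have h6 : (3 : ℤ) ∣ (dd (n1 * n2) b : ℤ) := by exact_mod_cast h
            rw [k2] at h6
            obtain ⟨k, rfl⟩ := hb
            have h7 : (3 : ℤ) ∣ ((n1 * n2 : ℕ) : ℤ) := by
              have : ((n1 * n2 : ℕ) : ℤ) =
                ((n1 * n2 : ℕ) : ℤ) - (3 * k) ^ 2 + 3 * (3 * k ^ 2) := by ring
              rw [this]
              exact dvd_add h6 (Dvd.intro _ rfl)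
            have h9 : (3 : ℕ) ∣ n1 * n2 := by exact_mod_cast h7
            rcases (Nat.Prime.dvd_mul Nat.prime_three).1 h9 with h9 | h9 <;> omega
          rw [h0]
          push_cast
          ring
      · rw [if_neg hb, cp3_lr hs h8 h8' h3 h3' hN hb hc, cp_loc hs h8 h8' hN, if_pos hc,
          loc_two h3, loc3_eq]
        ring
    · rw [if_neg hc]
      by_cases hb : (3 : ℤ) ∣ b
      · rw [if_pos hb, pc0 n1 n2 b hc]
        rfl
      · rw [if_neg hb, cp3_none hc, pc0 n1 n2 b hc]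
        rfl
  have e4 : 6 * ∑ b ∈ Ioo (-B) B, (if (16 : ℤ) ∣ n1 + n2 - 2 * b then
      lr n1 (dd (n1 * n2) b) else 0) =
      2 * ∑ b ∈ Ioo (-B) B, (cp n1 b n2 : ℤ) -
      ∑ b ∈ Ioo (-B) B, (if (3 : ℤ) ∣ b then 0 else ((cp n1 b n2 : ℤ) + cp3 n1 b n2)) := by
    rw [mul_sum, mul_sum, ← sum_sub_distrib]
    exact sum_congr rfl e3
  rw [e1] at e4
  linarith

/-- the sum of the densities with the valuation at `3` -/
theorem sumB {n1 n2 : ℕ} (hs : Squarefree n1) (h8 : n1 % 8 = 3) (h8' : n2 % 8 = 3)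
    (h3 : n1 % 3 = 2) (hN : ¬ IsSquare (n1 * n2)) {B : ℤ}
    (hB : (n1 : ℤ) * n2 < B ^ 2) (hB0 : 0 < B) :
    3 * ∑ b ∈ Ioo (-B) B, (if (16 : ℤ) ∣ n1 + n2 - 2 * b then
      (((dd (n1 * n2) b).factorization 3 : ℤ) + 1) * lr n1 (dd (n1 * n2) b) else 0) =
      rr n1 * rr n2 := by
  rw [← cp_all hB hB0, mul_sum]
  refine sum_congr rfl fun b _ => ?_
  rw [cp_loc hs h8 h8' hN, loc_two h3]
  split_ifs <;> ring

/-- the counts with inner product divisible by three -/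
theorem cp0_loc {n1 n2 : ℕ} (hs : Squarefree n1) (h8 : n1 % 8 = 3) (h8' : n2 % 8 = 3)
    (hN : ¬ IsSquare (n1 * n2)) {B : ℤ} (hB : (n1 : ℤ) * n2 < (3 * B) ^ 2)
    (hB0 : 0 < B) :
    (cp0 n1 n2 : ℤ) = 3 * ∑ c ∈ Ioo (-B) B, (if (16 : ℤ) ∣ n1 + n2 - 2 * (3 * c) then
      loc n1 (dd (n1 * n2) (3 * c)) else 0) := by
  rw [cp0_all hB (by linarith : (0 : ℤ) < 3 * B)]
  have h1 : ∀ b : ℤ, (if (3 : ℤ) ∣ b then (cp n1 b n2 : ℤ) else 0) =
      if (3 : ℤ) ∣ b then (if (16 : ℤ) ∣ n1 + n2 - 2 * b then 3 * loc n1 (dd (n1 * n2) b)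
        else 0) else 0 := by
    intro b
    rw [cp_loc hs h8 h8' hN]
  rw [sum_congr rfl fun b _ => h1 b,
    sum_three (fun b : ℤ => if (16 : ℤ) ∣ n1 + n2 - 2 * b then 3 * loc n1 (dd (n1 * n2) b)
        else 0), mul_sum]
  refine sum_congr rfl fun c _ => ?_
  split_ifs
  · rfl
  · rfl

end Pool.Agent.Run7.h483.P24
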