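import Pool.Agent.Run7.h483.P24.Hi

/-!
# P24 (helper483): the powers of two dividing the sums of the local densities over the divisors
-/

set_option autoImplicit false

namespace Pool.Agent.Run7.h483.P24

open Finset
open Pool.Agent.Z700 (hh fac)
open Pool.Agent.Run7.h135.P24 (loc loc3)
open Pool.Agent.Run7.h483.P15 (Gd gd_c4 gd_c3 gd_mem gd_hc gd_fac dvd_prodP hc c4 c3 jac_two3
  jac_one3 nine_fact nine_fact3 dd dd_nine two_nm three_nm card3 sq3 pF3 conv1 conv2 conv3 val_one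
  nine_val jac_nz' jac_neg_nat nsq)

/-- the local densities away from `3` -/
def lr (n1 D : ℕ) : ℤ :=
  if Odd (D.factorization 2) then ∏ l ∈ (D.primeFactors.erase 2).erase 3, fac n1 D l else 0

theorem loc3_eq (n1 D : ℕ) : loc3 n1 D = (D.factorization 3 : ℤ) * lr n1 D := by
  unfold loc3 lr
  split_ifs with h
  · rfl
  · rw [mul_zero]

theorem loc_zero (n1 : ℕ) : loc n1 0 = 0 := by
  unfold loc
  simp

theorem lr_zero (n1 : ℕ) : lr n1 0 = 0 := by
  unfold lr
  simp

/-- `loc` with the factor at `3` -/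
theorem loc_three (n1 : ℕ) {D : ℕ} (hD : D ≠ 0) (h3 : 3 ∣ D) :
    loc n1 D = fac n1 D 3 * lr n1 D := by
  unfold loc lr
  by_cases h : Odd (D.factorization 2)
  · rw [if_pos h, if_pos h]
    have h1 : 3 ∈ D.primeFactors.erase 2 := by
      simp only [mem_erase, ne_eq, Nat.mem_primeFactors]
      exact ⟨by norm_num, by norm_num, h3, hD⟩
    rw [← mul_prod_erase _ _ h1]
  · rw [if_neg h, if_neg h, mul_zero]

theorem loc_two {n1 : ℕ} (h1 : n1 % 3 = 2) (D : ℕ) :
    loc n1 D = ((D.factorization 3 : ℤ) + 1) * lr n1 D := by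
  by_cases hD : D = 0
  · rw [hD, loc_zero, lr_zero, mul_zero]
  by_cases h3 : 3 ∣ D
  · rw [loc_three n1 hD h3]
    congr 1
    unfold fac
    rw [if_neg (by omega), jac_two3 h1]
    simp
  · rw [Nat.factorization_eq_zero_of_not_dvd h3]
    unfold loc lr
    have h4 : 3 ∉ D.primeFactors.erase 2 := by
      intro h
      exact h3 (Nat.dvd_of_mem_primeFactors (mem_of_mem_erase h))
    rw [erase_eq_of_notMem h4]
    simp

theorem lr_nine (n1 E : ℕ) : lr n1 (9 * E) = lr n1 E := by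
  by_cases hE : E = 0
  · rw [hE]
  unfold lr
  rw [nine_fact hE Nat.prime_two (by norm_num)]
  by_cases h : Odd (E.factorization 2)
  · rw [if_pos h, if_pos h]
    have hs : ((9 * E).primeFactors.erase 2).erase 3 = (E.primeFactors.erase 2).erase 3 := by
      ext l
      simp only [mem_erase, ne_eq, Nat.mem_primeFactors]
      constructor
      · rintro ⟨h3, h2, hl, hd, _⟩
        refine ⟨h3, h2, hl, ?_, hE⟩
        rcases (Nat.Prime.dvd_mul hl).1 hd with h' | h'
        · exfalso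
          have h1 : l ∣ 3 ^ 2 := by norm_num; exact h'
          exact h3 ((Nat.prime_dvd_prime_iff_eq hl Nat.prime_three).1 (hl.dvd_of_dvd_pow h1))
        · exact h'
      · rintro ⟨h3, h2, hl, hd, _⟩
        exact ⟨h3, h2, hl, Dvd.dvd.mul_left hd 9, by positivity⟩
    rw [hs]
    refine prod_congr rfl fun l hl => ?_
    have h3 : l ≠ 3 := ne_of_mem_erase hl
    have hlE := mem_of_mem_erase (mem_of_mem_erase hl)
    have hlp := Nat.prime_of_mem_primeFactors hlE
    have hj9 : jacobiSym ((9 : ℕ) : ℤ) l = 1 := by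
      have h1 : ((9 : ℕ) : ℤ) = 3 ^ 2 := by norm_num
      rw [h1]
      refine jacobiSym.sq_one' ?_
      rw [Int.gcd_eq_natAbs]
      exact (Nat.coprime_primes Nat.prime_three hlp).2 (Ne.symm h3)
    have hf := nine_fact hE hlp h3
    have hq : 9 * E / l ^ E.factorization l = 9 * (E / l ^ E.factorization l) :=
      Nat.mul_div_assoc 9 (Nat.ordProj_dvd E l)
    unfold fac hh
    rw [hf, hq]
    have e1 : ∀ x : ℕ, jacobiSym (-((9 * x : ℕ) : ℤ)) l = jacobiSym (-(x : ℤ)) l := by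
      intro x
      rw [jac_neg_nat, jac_neg_nat, Nat.cast_mul, jacobiSym.mul_left, hj9, one_mul]
    have e2 : n1 / l * (9 * (E / l ^ E.factorization l)) =
        9 * (n1 / l * (E / l ^ E.factorization l)) := by ring
    rw [e2, e1, e1]
  · rw [if_neg h, if_neg h]

/-! ### vanishing for `7 mod 8` -/

theorem loc_seven {n N : ℕ} {b : ℤ} (hsq : Squarefree n) (hn : n % 8 = 7) (hN : n ∣ N) :
    loc n (dd N b) = 0 := by
  by_cases h0 : dd N b = 0
  · rw [h0, loc_zero]
  obtain ⟨l, hl, h1, _⟩ := no_seven hsq hn h0 fun l hl hd =>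
    sq_jac (Nat.prime_of_mem_primeFactors hl) ((Nat.dvd_of_mem_primeFactors hl).trans hN) h0 hd
  unfold loc
  rw [prod_eq_zero hl h1]
  simp

theorem lr_seven {n N : ℕ} {b : ℤ} (hsq : Squarefree n) (hn : n % 8 = 7) (h3 : n % 3 = 2)
    (hN : n ∣ N) : lr n (dd N b) = 0 := by
  by_cases h0 : dd N b = 0
  · rw [h0, lr_zero]
  obtain ⟨l, hl, h1, h2⟩ := no_seven hsq hn h0 fun l hl hd =>
    sq_jac (Nat.prime_of_mem_primeFactors hl) ((Nat.dvd_of_mem_primeFactors hl).trans hN) h0 hd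
  have hl3 : l ≠ 3 := by
    rintro rfl
    rcases h2 with h2 | h2
    · omega
    · exact h2 (jac_two3 h3)
  unfold lr
  rw [prod_eq_zero (mem_erase.2 ⟨hl3, hl⟩) h1]
  simp

/-! ### the local densities are good -/

variable {P : Finset ℕ} {c : Finset ℕ → Prop}

theorem gd_lr {D : ℕ} (hP : ∀ p ∈ P, p.Prime) (hD : D ≠ 0)
    (hv : ∀ l ∈ P, l ∣ D → l ≠ 3 → D.factorization l = 1) :
    Gd P c (fun A => lr (∏ p ∈ A, p) D) := by
  unfold lr
  by_cases h5 : Odd (D.factorization 2)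
  · simp only [if_pos h5]
    refine Gd.prod _ _ fun l hl => ?_
    have h3 : l ≠ 3 := ne_of_mem_erase hl
    have h4 := mem_of_mem_erase (mem_of_mem_erase hl)
    exact gd_fac (Nat.prime_of_mem_primeFactors h4) hP hD
      fun hlP => hv l hlP (Nat.dvd_of_mem_primeFactors h4) h3
  · simp only [if_neg h5]
    exact Gd.const 0

theorem gd_loc {D : ℕ} (hP : ∀ p ∈ P, p.Prime) (hD : D ≠ 0)
    (hv : ∀ l ∈ P, l ∣ D → D.factorization l = 1) :
    Gd P c (fun A => loc (∏ p ∈ A, p) D) := by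
  unfold loc
  by_cases h5 : Odd (D.factorization 2)
  · simp only [if_pos h5]
    refine Gd.prod _ _ fun l hl => ?_
    have h4 := mem_of_mem_erase hl
    exact gd_fac (Nat.prime_of_mem_primeFactors h4) hP hD
      fun hlP => hv l hlP (Nat.dvd_of_mem_primeFactors h4)
  · simp only [if_neg h5]
    exact Gd.const 0

/-! ### the terms of U32 -/

variable {n : ℕ}

/-- the divisors `1 mod 4` with a density are `1 mod 8` -/
theorem sum8 {n N : ℕ} (hn : Squarefree n) (h3 : ¬ 3 ∣ n) (h2 : n % 2 = 1) (hN : 3 * n ∣ N)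
    (b : ℤ) : ∑ d ∈ n.divisors.filter (fun d => d % 4 = 1), loc (3 * d) (dd N b) =
      ∑ d ∈ n.divisors.filter (fun d => d % 8 = 1), loc (3 * d) (dd N b) := by
  rw [sum_filter, sum_filter]
  refine sum_congr rfl fun d hd => ?_
  have hdn := Nat.dvd_of_mem_divisors hd
  by_cases h1 : d % 8 = 1
  · rw [if_pos h1, if_pos (by omega)]
  · rw [if_neg h1]
    by_cases h4 : d % 4 = 1
    · rw [if_pos h4]
      have hs3 : Squarefree (3 * n) := sq3 hn h3
      have hd3 : 3 * d ∣ 3 * n := Nat.mul_dvd_mul_left 3 hdn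
      exact loc_seven (hs3.squarefree_of_dvd hd3) (by omega) (hd3.trans hN)
    · rw [if_neg h4]

/-- the powers of two for the sum over the divisors, a squarefree determinant -/
theorem termT (hn : Squarefree n) (h3 : ¬ 3 ∣ n) (h2 : n % 2 = 1) (b : ℤ) :
    (2 : ℤ) ^ n.primeFactors.card ∣ 2 * ∑ d ∈ n.divisors.filter (fun d => d % 8 = 1),
      loc (3 * d) (dd (3 * n) b) := by
  rw [← sum8 hn h3 h2 (dvd_refl _) b]
  by_cases h0 : dd (3 * n) b = 0
  · rw [h0]
    simp [loc_zero]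
  have hP : ∀ p ∈ (3 * n).primeFactors, p.Prime := fun p hp => Nat.prime_of_mem_primeFactors hp
  have hP2 : 2 ∉ (3 * n).primeFactors := two_nm (by omega)
  have hodd : ∀ p ∈ (3 * n).primeFactors, p % 2 = 1 := by
    intro p hp
    rcases (hP p hp).eq_two_or_odd with h | h
    · exact absurd (h ▸ hp) hP2
    · exact h
  have h1 := (gd_loc (D := dd (3 * n) b) hP h0 fun l hl hd =>
    val_one (sq3 hn h3) (hP l hl) (Nat.dvd_of_mem_primeFactors hl) h0 hd).total2
      (gd_c4 hodd) (gd_mem 3)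
  rw [conv1 hn h3 fun d => loc d (dd (3 * n) b), card3 hn.ne_zero h3, pow_succ] at h1
  have h4 : (4 : ℤ) * ∑ d ∈ n.divisors.filter (fun d => d % 4 = 1), loc (3 * d) (dd (3 * n) b) =
      (2 * ∑ d ∈ n.divisors.filter (fun d => d % 4 = 1), loc (3 * d) (dd (3 * n) b)) * 2 := by ring
  rw [h4] at h1
  exact Int.dvd_of_mul_dvd_mul_right (by norm_num) h1

/-! ### the terms of U33 -/

/-- the sum over the divisors `d ≡ 1 mod 8` -/
noncomputable def At (m : ℕ) (c : ℤ) : ℤ :=
  ∑ d ∈ m.divisors.filter (fun d => d % 8 = 1), loc (3 * d) (9 * dd m c)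

/-- the sum over the divisors `d ≡ 3 mod 8`, `d ≡ 2 mod 3` -/
noncomputable def Ct (m : ℕ) (c : ℤ) : ℤ :=
  ∑ d ∈ m.divisors.filter (fun d => d % 8 = 3 ∧ d % 3 = 2), lr d (dd m c)

theorem At_four {m : ℕ} (hm : Squarefree m) (h2 : m % 2 = 1) (h3 : ¬ 3 ∣ m) (c : ℤ) :
    At m c = ∑ d ∈ m.divisors.filter (fun d => d % 4 = 1), loc (3 * d) (9 * dd m c) := by
  unfold At
  rw [← dd_nine]
  exact (sum8 hm h3 h2 (Nat.mul_dvd_mul_right (by norm_num) m) (3 * c)).symm

theorem Ct_four {m : ℕ} (hm : Squarefree m) (c : ℤ) :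
    Ct m c = ∑ d ∈ m.divisors.filter (fun d => d % 4 = 3 ∧ d % 3 = 2), lr d (dd m c) := by
  unfold Ct
  rw [sum_filter, sum_filter]
  refine sum_congr rfl fun d hd => ?_
  have hdn := Nat.dvd_of_mem_divisors hd
  by_cases h1 : d % 8 = 3 ∧ d % 3 = 2
  · rw [if_pos h1, if_pos (by omega)]
  · rw [if_neg h1]
    by_cases h4 : d % 4 = 3 ∧ d % 3 = 2
    · rw [if_pos h4]
      exact (lr_seven (hm.squarefree_of_dvd hdn) (by omega) h4.2 hdn).symm
    · rw [if_neg h4]

theorem Ct_div {m : ℕ} (hm : Squarefree m) (h2 : m % 2 = 1) (h3 : ¬ 3 ∣ m) (c : ℤ) :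
    (2 : ℤ) ^ m.primeFactors.card ∣ 4 * Ct m c := by
  rw [Ct_four hm]
  by_cases h0 : dd m c = 0
  · rw [h0]
    simp [lr_zero]
  have hP : ∀ p ∈ m.primeFactors, p.Prime := fun p hp => Nat.prime_of_mem_primeFactors hp
  have hP2 : 2 ∉ m.primeFactors := two_nm h2
  have hodd : ∀ p ∈ m.primeFactors, p % 2 = 1 := by
    intro p hp
    rcases (hP p hp).eq_two_or_odd with h | h
    · exact absurd (h ▸ hp) hP2
    · exact h
  have h1 := (gd_lr (D := dd m c) hP h0 fun l hl hd _ =>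
    val_one hm (hP l hl) (Nat.dvd_of_mem_primeFactors hl) h0 hd).total2
      (gd_c4 hodd) (gd_c3 fun p hp h => three_nm h3 (by
        have h5 : 3 ∣ p := Nat.dvd_of_mod_eq_zero h
        rw [Nat.prime_dvd_prime_iff_eq Nat.prime_three (hP p hp)] at h5
        exact h5 ▸ hp))
  rwa [conv3 hm fun d => lr d (dd m c)] at h1

theorem At_even {m : ℕ} (hm : Squarefree m) (h2 : m % 2 = 1) (h3 : ¬ 3 ∣ m) (c : ℤ)
    (hv : Even ((dd m c).factorization 3)) :
    (2 : ℤ) ^ m.primeFactors.card ∣ At m c := by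
  rw [At_four hm h2 h3]
  by_cases h0 : dd m c = 0
  · rw [h0]
    simp [loc_zero]
  have h90 : 9 * dd m c ≠ 0 := by positivity
  have h39 : 3 ∣ 9 * dd m c := Dvd.dvd.mul_right (by norm_num) _
  have hP : ∀ p ∈ (3 * m).primeFactors, p.Prime := fun p hp => Nat.prime_of_mem_primeFactors hp
  have hP2 : 2 ∉ (3 * m).primeFactors := two_nm (by omega)
  have hodd : ∀ p ∈ (3 * m).primeFactors, p % 2 = 1 := by
    intro p hp
    rcases (hP p hp).eq_two_or_odd with h | h
    · exact absurd (h ▸ hp) hP2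
    · exact h
  -- the factor at three
  have hev : Even ((9 * dd m c).factorization 3) := by
    rw [nine_fact3 h0]
    exact hv.add (by decide)
  have hf : ∀ d : ℕ, fac (3 * d) (9 * dd m c) 3 =
      1 + jacobiSym (-((9 * dd m c / 3 ^ (9 * dd m c).factorization 3 : ℕ) : ℤ)) 3 := by
    intro d
    unfold fac hh
    rw [if_pos (Dvd.intro _ rfl), if_pos hev]
  have h1 := (gd_lr (D := 9 * dd m c) hP h90 fun l hl hd hl3 =>
    nine_val hm h0 l hl hd hl3).total2 (gd_c4 hodd) (gd_mem 3)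
  rw [conv1 hm h3 fun d => lr d (9 * dd m c), card3 hm.ne_zero h3, pow_succ] at h1
  have h4 : ∑ d ∈ m.divisors.filter (fun d => d % 4 = 1), loc (3 * d) (9 * dd m c) =
      (1 + jacobiSym (-((9 * dd m c / 3 ^ (9 * dd m c).factorization 3 : ℕ) : ℤ)) 3) *
      ∑ d ∈ m.divisors.filter (fun d => d % 4 = 1), lr (3 * d) (9 * dd m c) := by
    rw [mul_sum]
    refine sum_congr rfl fun d _ => ?_
    rw [loc_three _ h90 h39, hf]
  rw [h4]
  have h5 : (4 : ℤ) * ∑ d ∈ m.divisors.filter (fun d => d % 4 = 1), lr (3 * d) (9 * dd m c) =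
      (2 * ∑ d ∈ m.divisors.filter (fun d => d % 4 = 1), lr (3 * d) (9 * dd m c)) * 2 := by ring
  rw [h5] at h1
  have h6 := Int.dvd_of_mul_dvd_mul_right (by norm_num) h1
  have h7 : ¬ 3 ∣ 9 * dd m c / 3 ^ (9 * dd m c).factorization 3 :=
    Nat.not_dvd_ordCompl Nat.prime_three h90
  have h8 : jacobiSym (-((9 * dd m c / 3 ^ (9 * dd m c).factorization 3 : ℕ) : ℤ)) 3 = 1 ∨
      jacobiSym (-((9 * dd m c / 3 ^ (9 * dd m c).factorization 3 : ℕ) : ℤ)) 3 = -1 := by
    have h9 := (jac_nz' Nat.prime_three _).2 h7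
    rcases jacobiSym.trichotomy (-((9 * dd m c / 3 ^ (9 * dd m c).factorization 3 : ℕ) : ℤ)) 3
      with h | h | h
    · exact absurd h h9
    · exact Or.inl h
    · exact Or.inr h
  rcases h8 with h8 | h8
  · rw [h8]
    exact h6
  · rw [h8]
    simp

theorem At_odd {m : ℕ} (hm : Squarefree m) (h2 : m % 2 = 1) (h3 : ¬ 3 ∣ m) (c : ℤ)
    (hv : Odd ((dd m c).factorization 3)) :
    (2 : ℤ) ^ m.primeFactors.card ∣ At m c + 2 * Ct m c := by
  have h0 : dd m c ≠ 0 := by
    intro h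
    rw [h] at hv
    simp at hv
  have h90 : 9 * dd m c ≠ 0 := by positivity
  have h39 : 3 ∣ 9 * dd m c := Dvd.dvd.mul_right (by norm_num) _
  have hP : ∀ p ∈ (3 * m).primeFactors, p.Prime := fun p hp => Nat.prime_of_mem_primeFactors hp
  have hP2 : 2 ∉ (3 * m).primeFactors := two_nm (by omega)
  have hodd : ∀ p ∈ (3 * m).primeFactors, p % 2 = 1 := by
    intro p hp
    rcases (hP p hp).eq_two_or_odd with h | h
    · exact absurd (h ▸ hp) hP2
    · exact h
  have hov : ¬ Even ((9 * dd m c).factorization 3) := by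
    rw [nine_fact3 h0, Nat.not_even_iff_odd]
    exact hv.add_even (by decide)
  have h1 := ((((Gd.const 1).add (gd_hc (l := 3) (D := 9 * dd m c) Nat.prime_three hP h90))).mul
    (gd_lr (D := 9 * dd m c) hP h90 fun l hl hd hl3 => nine_val hm h0 l hl hd hl3)).total
      (gd_c4 hodd)
  rw [card3 hm.ne_zero h3, pow_succ, mul_comm ((2 : ℤ) ^ m.primeFactors.card) 2] at h1
  have h4 := Int.dvd_of_mul_dvd_mul_left (by norm_num) h1
  have h5 : ∑ A ∈ (3 * m).primeFactors.powerset.filter c4,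
      (1 + hc 3 (9 * dd m c) A) * lr (∏ p ∈ A, p) (9 * dd m c) =
      At m c + 2 * Ct m c := by
    have h6 : ∑ A ∈ (3 * m).primeFactors.powerset.filter c4,
        (1 + hc 3 (9 * dd m c) A) * lr (∏ p ∈ A, p) (9 * dd m c) =
        ∑ A ∈ (3 * m).primeFactors.powerset.filter (fun A => c4 A ∧ 3 ∈ A),
          loc (∏ p ∈ A, p) (9 * dd m c) +
        ∑ A ∈ (3 * m).primeFactors.powerset.filter (fun A => c4 A ∧ 3 ∉ A),
          (1 + jacobiSym (-((∏ p ∈ A, p : ℕ) : ℤ)) 3) * lr (∏ p ∈ A, p) (9 * dd m c) := by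
      rw [sum_filter, sum_filter, sum_filter, ← sum_add_distrib]
      refine sum_congr rfl fun A hA => ?_
      by_cases hc4 : c4 A
      · by_cases h3A : 3 ∈ A
        · have hdv : 3 ∣ ∏ p ∈ A, p :=
            (dvd_prodP (fun p hp => hP p (mem_powerset.1 hA hp)) Nat.prime_three).2 h3A
          rw [if_pos hc4, if_pos ⟨hc4, h3A⟩, if_neg (fun h => h.2 h3A), loc_three _ h90 h39,
            add_zero]
          congr 1
          unfold hc fac hh
          rw [if_pos h3A, if_pos hdv, if_neg hov]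
        · rw [if_pos hc4, if_neg (fun h => h3A h.2), if_pos ⟨hc4, h3A⟩, zero_add]
          congr 1
          unfold hc
          rw [if_neg h3A]
      · rw [if_neg hc4, if_neg (fun h => hc4 h.1), if_neg (fun h => hc4 h.1), add_zero]
    rw [h6, conv1 hm h3 fun d => loc d (9 * dd m c),
      conv2 hm h3 fun d => (1 + jacobiSym (-(d : ℤ)) 3) * lr d (9 * dd m c), At_four hm h2 h3,
      Ct_four hm]
    congr 1
    rw [mul_sum, ← filter_filter, sum_filter (fun d => d % 3 = 2)]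
    refine sum_congr rfl fun d hd => ?_
    rw [mem_filter, Nat.mem_divisors] at hd
    have hd3 : ¬ 3 ∣ d := fun h => h3 (h.trans hd.1.1)
    rw [lr_nine]
    by_cases hd2 : d % 3 = 2
    · rw [if_pos hd2, jac_two3 hd2]
      ring
    · rw [if_neg hd2, jac_one3 (by omega)]
      ring
  rwa [h5] at h4

end Pool.Agent.Run7.h483.P24
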